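import Pool.Agent.H289SM.Stmts

/-!
# Assembly for MP_c09afc_pr
-/

set_option autoImplicit false

open scoped BigOperators ENNReal
open MeasureTheory Filter Topology Classical
open Pool.Agent.RW114

namespace Pool.Agent.H289SM

theorem core (P1 : TaskP1) (P3 : TaskP3) (P4 : TaskP4) (M1 : TaskM1) {V : Type} [Countable V]
    (G : SimpleGraph V) [G.LocallyFinite] (τ : ∀ x, Equiv.Perm (G.neighborSet x))
    (hτ : SingleOrbit G τ) (F : V → ℝ) (D : ℕ) (hF : Summable fun x => |F x|) (hL : IntLap G F)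
    (hD : ∀ x, (G.neighborFinset x).card ≤ D) (a b : V) (ha : ∃ k : ℤ, F a = k)
    (hb : ∀ k : ℤ, F b ≠ k) (μ : Measure (Conf G)) (hμa : Stationary G τ a μ)
    (hμb : Stationary G τ b μ) : ∃ μ', Stationary G τ a μ' ∧ μ' ≪ μ ∧ μ' ≠ μ := by
  obtain ⟨φ, c, hφ⟩ := P1 V G τ F D hτ hF hL hD
  have hmeas := P4 V G φ c hφ.1 hφ.2.1
  obtain ⟨hp, hta, hsa⟩ := hμa
  obtain ⟨-, htb, hsb⟩ := hμb
  obtain ⟨k₀, hk₀⟩ := ha
  have h1 : ∀ᵐ ρ ∂μ, ∃ k : ℤ, Phi G φ (final G τ a ρ) - Phi G φ ρ = k := by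
    filter_upwards [hta] with ρ hρ
    obtain ⟨k, hk⟩ := P3 V G τ F φ c hφ hF a ρ hρ
    refine ⟨k + k₀, ?_⟩
    push_cast
    linarith
  have h2 : ∀ᵐ ρ ∂μ, ∃ k : ℤ, Phi G φ (final G τ b ρ) - Phi G φ ρ - F b = k := by
    filter_upwards [htb] with ρ hρ
    exact P3 V G τ F φ c hφ hF b ρ hρ
  obtain ⟨μ', hp', hs', hac, hne⟩ := M1 (Conf G) μ (final G τ a) (final G τ b) (Phi G φ) (F b)
    hmeas hsa hsb h1 h2 hb
  exact ⟨μ', ⟨hp', hac.ae_le hta, hs'⟩, hac, hne⟩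

theorem onZd (P1 : TaskP1) (P3 : TaskP3) (P4 : TaskP4) (M1 : TaskM1) (F1 : TaskF1) (F2 : TaskF2)
    (F3 : TaskF3) (Z1 : TaskZ1) (Z2 : TaskZ2) (d : ℕ) (hd : 2 ≤ d)
    (τ : ∀ x, Equiv.Perm ((Zd d).neighborSet x)) (hτ : SingleOrbit (Zd d) τ)
    (μ : Measure (Conf (Zd d))) (hμ : ∀ b, Stationary (Zd d) τ b μ) (a : Fin d → ℤ) :
    ∃ μ', Stationary (Zd d) τ a μ' ∧ μ' ≪ μ ∧ μ' ≠ μ := by
  obtain ⟨inst⟩ := Z2 d
  obtain ⟨hsum, hlap⟩ := F1 d (by omega)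
  obtain ⟨h0, hint⟩ := F2 d (by omega)
  obtain ⟨b, hb⟩ := F3 d hd
  refine core P1 P3 P4 M1 (Zd d) τ hτ (fun x => FZ d (x - a)) (2 * d) ?_ ?_ ?_ a (b + a) ?_ ?_ μ
    (hμ a) (hμ _)
  · exact (Equiv.subRight a).summable_iff.2 hsum
  · intro x
    obtain ⟨hcard, hs⟩ := Z1 d x
    obtain ⟨k, hk⟩ := hint (x - a)
    refine ⟨-k, ?_⟩
    rw [Finset.sum_sub_distrib, Finset.sum_const, hs (fun y => FZ d (y - a)), hcard]
    have h1 := hlap (x - a)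
    rw [hk] at h1
    have h2 : ∀ i, FZ d (x + Pi.single i 1 - a) = FZ d (x - a + Pi.single i 1) := fun i => by
      congr 1; abel
    have h3 : ∀ i, FZ d (x - Pi.single i 1 - a) = FZ d (x - a - Pi.single i 1) := fun i => by
      congr 1; abel
    simp only [h2, h3, nsmul_eq_mul]
    push_cast
    rw [← h1]
  · intro x
    exact (Z1 d x).1.le
  · exact ⟨0, by simp [h0]⟩
  · simpa using hb

theorem full (P1 : TaskP1) (P3 : TaskP3) (P4 : TaskP4) (M1 : TaskM1) (F1 : TaskF1) (F2 : TaskF2)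
    (F3 : TaskF3) (Z1 : TaskZ1) (Z2 : TaskZ2) (T3 : TaskT3) (T6 : TaskT6) (d : ℕ) (hd : 2 ≤ d)
    (τ : ∀ x, Equiv.Perm ((Zd d).neighborSet x)) (hτ : SingleOrbit (Zd d) τ)
    (μ : Measure (Conf (Zd d))) :
    ((∀ b, Stationary (Zd d) τ b μ) →
      ∀ a, ∃ μ', Stationary (Zd d) τ a μ' ∧ μ' ≪ μ ∧ μ' ≠ μ) ∧
    (¬ ∀ a ν, Stationary (Zd d) τ a ν ↔ ν = μ) ∧
    (TransInv τ → IsProbabilityMeasure μ → IsOWUSF' (Zd d) μ →
      ∀ a, (Stationary (Zd d) τ a μ → ∃ μ', Stationary (Zd d) τ a μ' ∧ μ' ≪ μ ∧ μ' ≠ μ) ∧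
        ¬ ∀ ν, Stationary (Zd d) τ a ν ↔ ν = μ) := by
  have h1 := onZd P1 P3 P4 M1 F1 F2 F3 Z1 Z2 d hd τ hτ μ
  refine ⟨h1, ?_, ?_⟩
  · intro h
    obtain ⟨μ', hs, -, hne⟩ := h1 (fun b => (h b μ).2 rfl) 0
    exact hne ((h 0 μ').1 hs)
  · intro hT hp hO a
    have h2 : Stationary (Zd d) τ a μ → ∃ μ', Stationary (Zd d) τ a μ' ∧ μ' ≪ μ ∧ μ' ≠ μ :=
      fun hs => h1 (fun b => T3 d τ hT μ (T6 d μ hp hO) a b hs) a
    refine ⟨h2, fun h => ?_⟩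
    obtain ⟨μ', hs, -, hne⟩ := h2 ((h μ).2 rfl)
    exact hne ((h μ').1 hs)

end Pool.Agent.H289SM
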