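import Pool.Agent.RW114.Stmts

/-!
# Blueprint for MP_c09afc_pr (uniqueness of infinite-step stationary measures of rotor walk on ℤ^d)

Idea: a function `F : ℤ^d → ℝ` in `ℓ¹` with integer Laplacian, `F 0 = 0`, and a non-integer value
gives a function `Phi` on rotor configurations which is invariant modulo `ℤ` under the walk from `0`
and shifted by `F b` under the walk from `b`. Conditioning on `Phi` gives new stationary measures.
`Conf`, `SingleOrbit`, `step`, `walk`, `Transient`, `final`, `confMS` are those of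
`Pool/Agent/RW114/Stmts.lean`.
-/

set_option autoImplicit false

open scoped BigOperators ENNReal
open MeasureTheory Filter Topology Classical
open Pool.Agent.RW114

namespace Pool.Agent.H289SM

/-! ### Definitions -/

/-- The nearest-neighbour graph of `ℤ^d`. -/
def Zd (d : ℕ) : SimpleGraph (Fin d → ℤ) where
  Adj x y := ∑ i, |x i - y i| = 1
  symm := ⟨fun x y h => by simpa [abs_sub_comm] using h⟩
  loopless := ⟨fun x h => by simp at h⟩

/-- `μ` is infinite-step stationary for the rotor walk from `a`. -/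
def Stationary {V : Type} (G : SimpleGraph V) (τ : ∀ x, Equiv.Perm (G.neighborSet x)) (a : V)
    (μ : Measure (Conf G)) : Prop :=
  IsProbabilityMeasure μ ∧ (∀ᵐ ρ ∂μ, Transient G τ a ρ) ∧ μ.map (final G τ a) = μ

/-- `F` has integer Laplacian -/
def IntLap {V : Type} (G : SimpleGraph V) [G.LocallyFinite] (F : V → ℝ) : Prop :=
  ∀ x, ∃ k : ℤ, ∑ y ∈ G.neighborFinset x, (F y - F x) = k

/-- a phase for `F` -/
def Phase {V : Type} (G : SimpleGraph V) (τ : ∀ x, Equiv.Perm (G.neighborSet x)) (F : V → ℝ)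
    (φ : ∀ x, G.neighborSet x → ℝ) (c : V → ℝ) : Prop :=
  Summable c ∧ (∀ x r, |φ x r| ≤ c x) ∧
    ∀ x r, ∃ k : ℤ, φ x (τ x r) - φ x r + F (τ x r : G.neighborSet x) - F x = k

/-- the total phase -/
noncomputable def Phi {V : Type} (G : SimpleGraph V) (φ : ∀ x, G.neighborSet x → ℝ)
    (ρ : Conf G) : ℝ := ∑' x, φ x (ρ x)

/-! ### Dynamics -/

/-- 1. existence of a phase. Hint: fix `r₀ : G.neighborSet x` (if there is none, nothing to do). The
orbit of `r₀` under `τ x` is everything, with `N = card (G.neighborSet x)` elements: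
`φ x (τ^k r₀) = -∑_{1 ≤ i ≤ k} (F (τ^i r₀) - F x)` for `0 ≤ k < N`; around the cycle the sum is the
integer Laplacian. `c x = ∑_{y ~ x} |F y - F x|`, summable as the degrees are at most `D`. -/
def TaskP1 : Prop :=
  ∀ (V : Type) (G : SimpleGraph V) [G.LocallyFinite] (τ : ∀ x, Equiv.Perm (G.neighborSet x))
    (F : V → ℝ) (D : ℕ), SingleOrbit G τ → Summable (fun x => |F x|) → IntLap G F →
    (∀ x, (G.neighborFinset x).card ≤ D) → ∃ φ c, Phase G τ F φ c

/-- 2. one step. Only the rotor at `s.2` changes. -/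
def TaskP2 : Prop :=
  ∀ (V : Type) (G : SimpleGraph V) (τ : ∀ x, Equiv.Perm (G.neighborSet x))
    (F : V → ℝ) (φ : ∀ x, G.neighborSet x → ℝ) (c : V → ℝ), Phase G τ F φ c →
    ∀ s : Conf G × V, ∃ k : ℤ,
      Phi G φ (step G τ s).1 + F (step G τ s).2 - (Phi G φ s.1 + F s.2) = k

/-- 3. the limit. By 2 and induction `Phi (ρ_t) + F (X_t) - Phi ρ - F a` is an integer; `X_t` leaves
every finite set and `F` tends to 0 along `cofinite`; `ρ_t x` is eventually `final x` for every `x`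
(each vertex is visited finitely often), so `Phi (ρ_t) → Phi (final ρ)` by
`tendsto_tsum_of_dominated_convergence`; the set of integers is closed in `ℝ`. -/
def TaskP3 : Prop :=
  ∀ (V : Type) (G : SimpleGraph V) (τ : ∀ x, Equiv.Perm (G.neighborSet x))
    (F : V → ℝ) (φ : ∀ x, G.neighborSet x → ℝ) (c : V → ℝ), Phase G τ F φ c →
    Summable (fun x => |F x|) → ∀ (a : V) (ρ : Conf G), Transient G τ a ρ →
      ∃ k : ℤ, Phi G φ (final G τ a ρ) - Phi G φ ρ - F a = k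

/-- 4. measurability: each `ρ ↦ φ x (ρ x)` is measurable (all sets of neighbours are measurable);
sum over the countable set `V` (`HasSum` as a limit of finite sums, or `Measurable.tsum` if it
exists) -/
def TaskP4 : Prop :=
  ∀ (V : Type) [Countable V] (G : SimpleGraph V) (φ : ∀ x, G.neighborSet x → ℝ) (c : V → ℝ),
    Summable c → (∀ x r, |φ x r| ≤ c x) → Measurable (Phi G φ)

/-- 5. abstract measure theory: `Φ` is invariant modulo `ℤ` under `S`, shifted by a non-integer `β`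
under `T`, both preserve `μ`. Let `h = exp(2πiΦ)`: `∫ h = exp(2πiβ) ∫ h`, so `∫ h = 0`; hence one of
`{Re h > 0}`, `{Im h > 0}` has measure strictly between 0 and 1. This set `A` is a.e. invariant
under `S`, and `μ[|A]` (`ProbabilityTheory.cond`) works. -/
def TaskM1 : Prop :=
  ∀ (Ω : Type) [MeasurableSpace Ω] (μ : Measure Ω) [IsProbabilityMeasure μ] (S T : Ω → Ω)
    (Φ : Ω → ℝ) (β : ℝ), Measurable Φ → μ.map S = μ → μ.map T = μ →
    (∀ᵐ ω ∂μ, ∃ k : ℤ, Φ (S ω) - Φ ω = k) → (∀ᵐ ω ∂μ, ∃ k : ℤ, Φ (T ω) - Φ ω - β = k) →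
    (∀ k : ℤ, β ≠ k) →
    ∃ μ' : Measure Ω, IsProbabilityMeasure μ' ∧ μ'.map S = μ' ∧ μ' ≪ μ ∧ μ' ≠ μ

/-! ### The function `F` on `ℤ^d` -/

/-- mean of the two neighbours on `ℤ` -/
noncomputable def B (f : ℤ → ℝ) (z : ℤ) : ℝ := (f (z + 1) + f (z - 1)) / 2

/-- difference of the two neighbours on `ℤ` -/
def Dd (f : ℤ → ℝ) (z : ℤ) : ℝ := f (z + 1) - f (z - 1)

/-- point mass -/
def del (z : ℤ) : ℝ := if z = 0 then 1 else 0

/-- `h k = B^k D^3 δ` -/
noncomputable def h (k : ℕ) : ℤ → ℝ := B^[k] (Dd^[3] del)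

/-- products -/
noncomputable def gg {d : ℕ} (n : Fin d → ℕ) (x : Fin d → ℤ) : ℝ := ∏ i, h (n i) (x i)

/-- the transition operator of simple random walk on `ℤ^d` -/
noncomputable def Aop {d : ℕ} (f : (Fin d → ℤ) → ℝ) (x : Fin d → ℤ) : ℝ :=
  (∑ i, (f (x + Pi.single i 1) + f (x - Pi.single i 1)) / 2) / d

/-- the function `F` -/
noncomputable def FZ (d : ℕ) (x : Fin d → ℤ) : ℝ :=
  (∑' t : ℕ, Aop^[t] (gg (fun _ : Fin d => 0)) x) / (2 * d)

/-- 6. central binomial coefficients: e.g. `(2m+1) C(2m,m)^2 ≤ 16^m` by induction, and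
`C(2m+1,m) ≤ C(2m+2,m+1)/2` -/
def TaskH1 : Prop := ∀ m : ℕ, ((m.choose (m / 2) : ℕ) : ℝ) ≤ 2 * 2 ^ m / √((m : ℝ) + 1)

/-- 7. `B^m D f (z) = 2^{-m} ∑_{j=0}^{m+1} (C(m,j) - C(m,j-1)) f (z + m + 1 - 2 j)` (induction on m,
Pascal), and `∑_j |C(m,j) - C(m,j-1)| = 2 C(m, m/2)` (unimodality of the binomial coefficients) -/
def TaskH2 : Prop := ∀ (m : ℕ) (f : ℤ → ℝ), Summable (fun z => |f z|) →
  Summable (fun z => |B^[m] (Dd f) z|) ∧
  ∑' z, |B^[m] (Dd f) z| ≤ 2 * (m.choose (m / 2) : ℕ) / 2 ^ m * ∑' z, |f z|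

/-- 8. from 6, 7: for `k ≥ 3 m`, `m = k / 3`: `B` and `Dd` commute, `h k = B^(k-3m) (B^m D)^3 δ`, and
`B` does not increase the norm -/
def TaskH3 : Prop := ∃ C : ℝ, 0 < C ∧ ∀ k : ℕ, Summable (fun z => |h k z|) ∧
  ∑' z, |h k z| ≤ C / (((k : ℝ) + 1) * √((k : ℝ) + 1))

/-- 9. products of summable functions (induction on `d`, or `Fin.consEquiv`, `Summable.mul_norm`;
or first for finite sums by `Finset.prod_univ_sum`) -/
def TaskG1 : Prop := ∀ (d : ℕ) (u : Fin d → ℤ → ℝ), (∀ i, Summable fun z => |u i z|) →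
  Summable (fun x : Fin d → ℤ => |∏ i, u i (x i)|) ∧
  ∑' x : Fin d → ℤ, |∏ i, u i (x i)| = ∏ i, ∑' z, |u i z|

/-- 10. from 8, 9: pigeonhole, some `n i ≥ (∑ n) / d` -/
def TaskG2 : Prop := ∀ d : ℕ, 0 < d → ∃ C : ℝ, 0 < C ∧ ∀ n : Fin d → ℕ,
  Summable (fun x => |gg n x|) ∧
  ∑' x, |gg n x| ≤ C / ((((∑ i, n i : ℕ) : ℝ) + 1) * √(((∑ i, n i : ℕ) : ℝ) + 1))

/-- 11. `A` acts on products -/
def TaskG3 : Prop := ∀ (d : ℕ) (n : Fin d → ℕ) (x : Fin d → ℤ),
  Aop (gg n) x = (∑ i, gg (n + Pi.single i 1) x) / d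

/-- 12. from 10, 11: by induction on `t`, `A^t (gg m)` has norm at most the largest norm of the
`gg n` with `∑ n = ∑ m + t` -/
def TaskG4 : Prop := ∀ d : ℕ, 0 < d → ∃ C : ℝ, 0 < C ∧ ∀ t : ℕ,
  Summable (fun x => |Aop^[t] (gg (fun _ : Fin d => 0)) x|) ∧
  ∑' x, |Aop^[t] (gg (fun _ : Fin d => 0)) x| ≤ C / (((t : ℝ) + 1) * √((t : ℝ) + 1))

/-- 13. from 12: sum over `t` and `x` -/
def TaskF1 : Prop := ∀ d : ℕ, 0 < d → Summable (fun x => |FZ d x|) ∧
  ∀ x, ∑ i, (FZ d (x + Pi.single i 1) + FZ d (x - Pi.single i 1)) - 2 * d * FZ d x =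
    - gg (fun _ : Fin d => 0) x

/-- 14. `gg 0` is integer valued, `FZ d 0 = 0` as `gg 0` is odd in the first coordinate and `Aop`
commutes with the reflection in this coordinate -/
def TaskF2 : Prop := ∀ d : ℕ, 0 < d → FZ d 0 = 0 ∧
  ∀ x, ∃ k : ℤ, gg (fun _ : Fin d => 0) x = k

/-- 15. from 13: otherwise `FZ d` has finite support (summable and integer valued); choose real
`w i ≠ 0, 1, -1` with `∑ (w i + 1 / w i) = 2 d` (`w 0 = -2`, the others equal, positive), multiply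
the equation in 13 by `∏ (w i) ^ (x i)` and sum over `x`: the left side gives 0, the right side
`-∏_i ∑_z h 0 z * (w i)^z = -∏_i ((w i)⁻¹ - w i)^3 ≠ 0` -/
def TaskF3 : Prop := ∀ d : ℕ, 2 ≤ d → ∃ b, ∀ k : ℤ, FZ d b ≠ k

/-- 16. neighbours in `ℤ^d` -/
def TaskZ1 : Prop := ∀ (d : ℕ) [(Zd d).LocallyFinite] (x : Fin d → ℤ),
  ((Zd d).neighborFinset x).card = 2 * d ∧ ∀ f : (Fin d → ℤ) → ℝ,
    ∑ y ∈ (Zd d).neighborFinset x, f y = ∑ i, (f (x + Pi.single i 1) + f (x - Pi.single i 1))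

/-- 17. `ℤ^d` is locally finite: neighbours are `x ± e_i` -/
def TaskZ2 : Prop := ∀ d : ℕ, Nonempty (Zd d).LocallyFinite

/-! ### Translations -/

theorem Zd_adj_add {d : ℕ} {x y v : Fin d → ℤ} (h : (Zd d).Adj (x - v) y) :
    (Zd d).Adj x (y + v) := by
  change ∑ i, |(x - v) i - y i| = 1 at h
  change ∑ i, |x i - (y + v) i| = 1
  rw [← h]
  refine Finset.sum_congr rfl fun i _ => ?_
  congr 1
  simp only [Pi.sub_apply, Pi.add_apply]
  ring

/-- translation of a rotor configuration of `ℤ^d` by `v` -/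
def shift {d : ℕ} (v : Fin d → ℤ) (ρ : Conf (Zd d)) : Conf (Zd d) := fun x =>
  ⟨(ρ (x - v) : (Zd d).neighborSet (x - v)).1 + v, Zd_adj_add (ρ (x - v)).2⟩

/-- the mechanisms are translation invariant -/
def TransInv {d : ℕ} (τ : ∀ x, Equiv.Perm ((Zd d).neighborSet x)) : Prop :=
  ∀ (v : Fin d → ℤ) (x : Fin d → ℤ) (ρ : Conf (Zd d)),
    (τ x (shift v ρ x) : (Zd d).neighborSet x).1 =
      (τ (x - v) (ρ (x - v)) : (Zd d).neighborSet (x - v)).1 + v

/-- The `I`-forests: an out-neighbour for every vertex of `I`, without directed cycle in `I`. -/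
def ForestsI {V : Type} (G : SimpleGraph V) (I : Set V) : Set (∀ x : I, G.neighborSet x.1) :=
  {f | ¬ ∃ (k : ℕ) (c : ℕ → I), 0 < k ∧ c k = c 0 ∧
    ∀ i < k, ((f (c i) : G.neighborSet (c i).1) : V) = (c (i + 1)).1}

/-- The measure `μ` is the weak limit of the uniform measures on the forests, along every
exhaustion by finite sets. -/
def IsOWUSF' {V : Type} (G : SimpleGraph V) (μ : Measure (Conf G)) : Prop :=
  ∀ I : ℕ → Set V, Monotone I → (∀ R, (I R).Finite) → (⋃ R, I R) = Set.univ →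
    ∀ (W : Finset V) (η : Conf G),
      Tendsto (fun R : ℕ => (({f | f ∈ ForestsI G (I R) ∧ ∀ x : I R, x.1 ∈ W → f x = η x.1}.ncard
        : ℝ) / (ForestsI G (I R)).ncard)) atTop (𝓝 (μ.real {ρ | ∀ x ∈ W, ρ x = η x}))

/-- 18. the shift is measurable and `final`, `Transient` are equivariant -/
def TaskT1 : Prop := ∀ (d : ℕ) (τ : ∀ x, Equiv.Perm ((Zd d).neighborSet x)), TransInv τ →
  ∀ (v a : Fin d → ℤ) (ρ : Conf (Zd d)),
    (Transient (Zd d) τ a ρ ↔ Transient (Zd d) τ (a + v) (shift v ρ)) ∧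
    (Transient (Zd d) τ a ρ → final (Zd d) τ (a + v) (shift v ρ) = shift v (final (Zd d) τ a ρ))

/-- 19. measurability of the shift, shift by `-v` is the inverse -/
def TaskT2 : Prop := ∀ (d : ℕ) (v : Fin d → ℤ), Measurable (shift v : Conf (Zd d) → Conf (Zd d)) ∧
  ∀ ρ : Conf (Zd d), shift (-v) (shift v ρ) = ρ ∧ shift v (shift (-v) ρ) = ρ

/-- 20. from 18, 19 -/
def TaskT3 : Prop := ∀ (d : ℕ) (τ : ∀ x, Equiv.Perm ((Zd d).neighborSet x)), TransInv τ →
  ∀ (μ : Measure (Conf (Zd d))), (∀ v, μ.map (shift v) = μ) → ∀ a b : Fin d → ℤ,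
    Stationary (Zd d) τ a μ → Stationary (Zd d) τ b μ

/-- 21. the probabilities of the cylinders `{ρ | ∀ x ∈ W, ρ x = η x}` determine the measure
(`V` countable; a pi-system generating `confMS`) -/
def TaskT4 : Prop := ∀ (V : Type) [Countable V] (G : SimpleGraph V) [G.LocallyFinite]
  (μ ν : Measure (Conf G)), IsProbabilityMeasure μ → IsProbabilityMeasure ν →
    (∀ (W : Finset V) (η : Conf G), μ.real {ρ | ∀ x ∈ W, ρ x = η x} =
      ν.real {ρ | ∀ x ∈ W, ρ x = η x}) → μ = ν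

/-- 22. bijection between the forests in `I` and in `I + v` -/
def TaskT5 : Prop := ∀ (d : ℕ) (v : Fin d → ℤ) (I : Set (Fin d → ℤ)) (W : Finset (Fin d → ℤ))
  (η : Conf (Zd d)),
    {f | f ∈ ForestsI (Zd d) I ∧ ∀ x : I, x.1 ∈ W → f x = η x.1}.ncard =
    {f | f ∈ ForestsI (Zd d) ((fun x => x + v) '' I) ∧
      ∀ x : (fun x => x + v) '' I, x.1 ∈ W.image (fun x => x + v) → f x = shift v η x.1}.ncard

/-- 23. from 19, 21, 22 (22 also with `W = ∅`) -/
def TaskT6 : Prop := ∀ (d : ℕ) (μ : Measure (Conf (Zd d))), IsProbabilityMeasure μ →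
  IsOWUSF' (Zd d) μ → ∀ v, μ.map (shift v) = μ

end Pool.Agent.H289SM
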