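import Mathlib
import Pool.Agent.H289SM.Stmts

set_option autoImplicit false

namespace Pool.Agent.H289SM.TaskF1

open Filter Topology

theorem main (h : Pool.Agent.H289SM.TaskG4) : Pool.Agent.H289SM.TaskF1 := by
  intro d hd
  obtain ⟨C, hC, hG⟩ := h d hd
  have hd0 : (d : ℝ) ≠ 0 := by exact_mod_cast hd.ne'
  set g : ℕ → (Fin d → ℤ) → ℝ := fun t => Aop^[t] (gg (fun _ : Fin d => 0)) with hg
  have hG' : ∀ t, Summable (fun x => |g t x|) ∧ ∑' x, |g t x| ≤ C / (((t : ℝ) + 1) * √((t : ℝ) + 1)) := hG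
  -- the sum over `t` of the norms
  have hc : Summable (fun t : ℕ => C / (((t : ℝ) + 1) * √((t : ℝ) + 1))) := by
    have h1 : Summable (fun n : ℕ => 1 / ((n : ℝ) ^ (3 / 2 : ℝ))) := Real.summable_one_div_nat_rpow.2 (by norm_num)
    have h2 := (summable_nat_add_iff 1).2 h1
    refine (h2.mul_left C).congr fun t => ?_
    have ht : (0 : ℝ) < (t : ℝ) + 1 := by positivity
    have h3 : ((t + 1 : ℕ) : ℝ) ^ (3 / 2 : ℝ) = ((t : ℝ) + 1) * √((t : ℝ) + 1) := by
      push_cast
      rw [show (3 / 2 : ℝ) = 1 + 1 / 2 by norm_num, Real.rpow_add ht, Real.rpow_one, Real.sqrt_eq_rpow]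
    rw [h3, mul_one_div]
  have hprod : Summable (fun q : ℕ × (Fin d → ℤ) => |g q.1 q.2|) := by
    rw [summable_prod_of_nonneg fun q => abs_nonneg _]
    refine ⟨fun t => (hG' t).1, ?_⟩
    exact Summable.of_nonneg_of_le (fun t => tsum_nonneg fun x => abs_nonneg _) (fun t => (hG' t).2) hc
  have hswap : Summable (fun q : (Fin d → ℤ) × ℕ => |g q.2 q.1|) :=
    (Equiv.prodComm (Fin d → ℤ) ℕ).summable_iff.2 hprod
  rw [summable_prod_of_nonneg fun q => abs_nonneg _] at hswap
  obtain ⟨hx, hX⟩ := hswap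
  have hx' : ∀ x, Summable (fun t => g t x) := fun x => (hx x).of_abs
  have hF : ∀ x, FZ d x = (∑' t, g t x) / (2 * d) := fun x => rfl
  have hstep : ∀ t x, ∑ i, (g t (x + Pi.single i 1) + g t (x - Pi.single i 1)) = 2 * d * g (t + 1) x := by
    intro t x
    have e1 : g (t + 1) x = Aop (g t) x := by
      rw [hg]
      simp only
      rw [Function.iterate_succ_apply']
    rw [e1]
    unfold Aop
    rw [← Finset.sum_div]
    field_simp
  constructor
  · refine Summable.of_nonneg_of_le (fun x => abs_nonneg _) (fun x => ?_) (hX.mul_left (1 / (2 * (d : ℝ))))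
    rw [hF, abs_div, abs_of_pos (by positivity : (0 : ℝ) < 2 * d)]
    have h1 : |∑' t, g t x| ≤ ∑' t, |g t x| := by
      have := norm_tsum_le_tsum_norm (f := fun t => g t x) (by simpa [Real.norm_eq_abs] using hx x)
      simpa [Real.norm_eq_abs] using this
    calc |∑' t, g t x| / (2 * d) ≤ (∑' t, |g t x|) / (2 * d) := div_le_div_of_nonneg_right h1 (by positivity)
      _ = 1 / (2 * (d : ℝ)) * ∑' t, |g t x| := by ring
  · intro x
    have h1 : ∑ i, (FZ d (x + Pi.single i 1) + FZ d (x - Pi.single i 1)) =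
        (∑' t, ∑ i, (g t (x + Pi.single i 1) + g t (x - Pi.single i 1))) / (2 * d) := by
      rw [Summable.tsum_finsetSum fun i _ => (hx' _).add (hx' _), Finset.sum_div]
      refine Finset.sum_congr rfl fun i _ => ?_
      rw [hF, hF, (hx' _).tsum_add (hx' _), add_div]
    have h2 : (∑' t, ∑ i, (g t (x + Pi.single i 1) + g t (x - Pi.single i 1))) = 2 * d * ∑' t, g (t + 1) x := by
      rw [← tsum_mul_left]
      exact tsum_congr fun t => hstep t x
    have h3 : ∑' t, g t x = g 0 x + ∑' t, g (t + 1) x := (hx' x).tsum_eq_zero_add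
    rw [h1, h2, hF, h3]
    have h4 : g 0 x = gg (fun _ : Fin d => 0) x := rfl
    rw [h4]
    field_simp
    ring

end Pool.Agent.H289SM.TaskF1
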