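import Pool.Agent.H289SM.Stmts

set_option autoImplicit false

namespace Pool.Agent.H289SM.TaskF2

open Pool.Agent.H289SM

private lemma del_even (z : ℤ) : del (-z) = del z := by
  unfold del
  simp

private lemma Dd_of_even {f : ℤ → ℝ} (hf : ∀ z, f (-z) = f z) (z : ℤ) : Dd f (-z) = - Dd f z := by
  unfold Dd
  have h1 : (-z + 1 : ℤ) = -(z - 1) := by ring
  have h2 : (-z - 1 : ℤ) = -(z + 1) := by ring
  rw [h1, h2, hf, hf]
  ring

private lemma Dd_of_odd {f : ℤ → ℝ} (hf : ∀ z, f (-z) = - f z) (z : ℤ) : Dd f (-z) = Dd f z := by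
  unfold Dd
  have h1 : (-z + 1 : ℤ) = -(z - 1) := by ring
  have h2 : (-z - 1 : ℤ) = -(z + 1) := by ring
  rw [h1, h2, hf, hf]
  ring

private lemma h_odd (z : ℤ) : h 0 (-z) = - h 0 z := by
  change Dd (Dd (Dd del)) (-z) = - Dd (Dd (Dd del)) z
  exact Dd_of_even (Dd_of_odd (Dd_of_even del_even)) z

private lemma Dd_int {f : ℤ → ℝ} (hf : ∀ z, ∃ k : ℤ, f z = k) (z : ℤ) : ∃ k : ℤ, Dd f z = k := by
  obtain ⟨a, ha⟩ := hf (z + 1)
  obtain ⟨b, hb⟩ := hf (z - 1)
  exact ⟨a - b, by unfold Dd; rw [ha, hb]; push_cast; ring⟩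

private lemma h_int (z : ℤ) : ∃ k : ℤ, h 0 z = k := by
  change ∃ k : ℤ, Dd (Dd (Dd del)) z = k
  refine Dd_int (Dd_int (Dd_int ?_)) z
  intro z
  unfold del
  split_ifs
  · exact ⟨1, by simp⟩
  · exact ⟨0, by simp⟩

/-- reflection in one coordinate -/
private def R {d : ℕ} (j : Fin d) (x : Fin d → ℤ) : Fin d → ℤ := Function.update x j (-(x j))

private lemma R_zero {d : ℕ} (j : Fin d) : R j (0 : Fin d → ℤ) = 0 := by
  unfold R
  simp

private lemma R_add_ne {d : ℕ} (j i : Fin d) (hij : i ≠ j) (x : Fin d → ℤ) (c : ℤ) :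
    R j x + Pi.single i c = R j (x + Pi.single i c) := by
  funext l
  by_cases hl : l = j
  · subst hl
    simp [R, Pi.single_apply, hij.symm]
  · simp [R, Function.update_of_ne hl]

private lemma R_add_eq {d : ℕ} (j : Fin d) (x : Fin d → ℤ) (c : ℤ) :
    R j x + Pi.single j c = R j (x - Pi.single j c) := by
  funext l
  by_cases hl : l = j
  · subst hl
    simp [R]
    ring
  · simp [R, Function.update_of_ne hl, Pi.single_apply, hl]

private lemma R_sub_ne {d : ℕ} (j i : Fin d) (hij : i ≠ j) (x : Fin d → ℤ) (c : ℤ) :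
    R j x - Pi.single i c = R j (x - Pi.single i c) := by
  have := R_add_ne j i hij x (-c)
  rw [Pi.single_neg, ← sub_eq_add_neg, ← sub_eq_add_neg] at this
  exact this

private lemma R_sub_eq {d : ℕ} (j : Fin d) (x : Fin d → ℤ) (c : ℤ) :
    R j x - Pi.single j c = R j (x + Pi.single j c) := by
  have := R_add_eq j x (-c)
  rw [Pi.single_neg, ← sub_eq_add_neg, sub_neg_eq_add] at this
  exact this

private lemma gg_odd {d : ℕ} (j : Fin d) (x : Fin d → ℤ) :
    gg (fun _ : Fin d => 0) (R j x) = - gg (fun _ : Fin d => 0) x := by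
  unfold gg
  rw [← Finset.mul_prod_erase Finset.univ _ (Finset.mem_univ j),
    ← Finset.mul_prod_erase Finset.univ (fun i => h 0 (x i)) (Finset.mem_univ j)]
  have h1 : h 0 (R j x j) = - h 0 (x j) := by
    simp [R, h_odd]
  rw [h1]
  have h2 : ∏ i ∈ Finset.univ.erase j, h 0 (R j x i) = ∏ i ∈ Finset.univ.erase j, h 0 (x i) := by
    refine Finset.prod_congr rfl fun i hi => ?_
    have : i ≠ j := Finset.ne_of_mem_erase hi
    simp [R, Function.update_of_ne this]
  rw [h2]
  ring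

private lemma Aop_odd {d : ℕ} (j : Fin d) {f : (Fin d → ℤ) → ℝ} (hf : ∀ x, f (R j x) = - f x)
    (x : Fin d → ℤ) : Aop f (R j x) = - Aop f x := by
  unfold Aop
  rw [← neg_div, ← Finset.sum_neg_distrib]
  congr 1
  refine Finset.sum_congr rfl fun i _ => ?_
  by_cases hij : i = j
  · subst hij
    rw [R_add_eq, R_sub_eq, hf, hf]
    ring
  · rw [R_add_ne j i hij, R_sub_ne j i hij, hf, hf]
    ring

private lemma iter_odd {d : ℕ} (j : Fin d) (t : ℕ) (x : Fin d → ℤ) :
    Aop^[t] (gg (fun _ : Fin d => 0)) (R j x) = - Aop^[t] (gg (fun _ : Fin d => 0)) x := by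
  induction t generalizing x with
  | zero => exact gg_odd j x
  | succ t ih =>
    rw [Function.iterate_succ_apply']
    exact Aop_odd j ih x

theorem main : Pool.Agent.H289SM.TaskF2 := by
  intro d hd
  refine ⟨?_, ?_⟩
  · have h0 : ∀ t : ℕ, Aop^[t] (gg (fun _ : Fin d => 0)) 0 = 0 := by
      intro t
      have := iter_odd (⟨0, hd⟩ : Fin d) t 0
      rw [R_zero] at this
      linarith
    unfold FZ
    simp [h0]
  · intro x
    unfold gg
    choose k hk using h_int
    exact ⟨∏ i, k (x i), by push_cast; exact Finset.prod_congr rfl fun i _ => hk (x i)⟩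

end Pool.Agent.H289SM.TaskF2
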