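import Pool.Agent.H289SM.Stmts

/-! Task 15 (F3) of the blueprint for MP_c09afc_pr: `FZ d` has a non-integer value. -/

set_option autoImplicit false

open scoped BigOperators

namespace Pool.Agent.H289SM.TaskF3

open Pool.Agent.H289SM

/-- the exponential weight -/
noncomputable def W {d : ℕ} (w : Fin d → ℝ) (x : Fin d → ℤ) : ℝ := ∏ i, w i ^ x i

lemma W_add {d : ℕ} (w : Fin d → ℝ) (hw : ∀ i, w i ≠ 0) (x : Fin d → ℤ) (i : Fin d) :
    W w (x + Pi.single i 1) = W w x * w i := by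
  unfold W
  have h1 : ∀ j, w j ^ ((x + Pi.single i 1 : Fin d → ℤ) j) =
      w j ^ x j * (if j = i then w j else 1) := by
    intro j
    rw [Pi.add_apply, zpow_add₀ (hw j)]
    congr 1
    by_cases hj : j = i
    · subst hj; simp
    · simp [hj]
  simp_rw [h1]
  rw [Finset.prod_mul_distrib, Finset.prod_ite_eq']
  simp

lemma W_sub {d : ℕ} (w : Fin d → ℝ) (hw : ∀ i, w i ≠ 0) (x : Fin d → ℤ) (i : Fin d) :
    W w x = W w (x - Pi.single i 1) * w i := by
  have h1 := W_add w hw (x - Pi.single i 1) i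
  rwa [sub_add_cancel] at h1

lemma hs_add {d : ℕ} (F : (Fin d → ℤ) → ℝ) (w : Fin d → ℝ) (hw : ∀ i, w i ≠ 0) (S : ℝ)
    (hS : HasSum (fun x => F x * W w x) S) (i : Fin d) :
    HasSum (fun x => F (x + Pi.single i 1) * W w x) ((w i)⁻¹ * S) := by
  have h1 := ((Equiv.addRight (Pi.single i (1 : ℤ) : Fin d → ℤ)).hasSum_iff.2 hS).mul_left (w i)⁻¹
  refine h1.congr_fun ?_
  intro x
  simp only [Function.comp, Equiv.coe_addRight]
  rw [W_add w hw]
  have := hw i
  field_simp

lemma hs_sub {d : ℕ} (F : (Fin d → ℤ) → ℝ) (w : Fin d → ℝ) (hw : ∀ i, w i ≠ 0) (S : ℝ)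
    (hS : HasSum (fun x => F x * W w x) S) (i : Fin d) :
    HasSum (fun x => F (x - Pi.single i 1) * W w x) (w i * S) := by
  have h1 := ((Equiv.subRight (Pi.single i (1 : ℤ) : Fin d → ℤ)).hasSum_iff.2 hS).mul_left (w i)
  refine h1.congr_fun ?_
  intro x
  simp only [Function.comp, Equiv.subRight_apply]
  rw [W_sub w hw x i]
  ring

lemma h_zero (z : ℤ) : h 0 z = del (z + 3) - 3 * del (z + 1) + 3 * del (z - 1) - del (z - 3) := by
  have e1 : z + 1 + 1 + 1 = z + 3 := by ring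
  have e2 : z + 1 + 1 - 1 = z + 1 := by ring
  have e3 : z + 1 - 1 + 1 = z + 1 := by ring
  have e4 : z + 1 - 1 - 1 = z - 1 := by ring
  have e5 : z - 1 + 1 + 1 = z + 1 := by ring
  have e6 : z - 1 + 1 - 1 = z - 1 := by ring
  have e7 : z - 1 - 1 + 1 = z - 1 := by ring
  have e8 : z - 1 - 1 - 1 = z - 3 := by ring
  simp only [h, Function.iterate_succ, Function.iterate_zero, Function.comp, id, Dd]
  simp only [e1, e2, e3, e4, e5, e6, e7, e8]
  ring

lemma h_out (z : ℤ) (hz : z ∉ Finset.Icc (-3 : ℤ) 3) : h 0 z = 0 := by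
  rw [h_zero]
  simp only [Finset.mem_Icc, not_and_or, not_le] at hz
  have a1 : z + 3 ≠ 0 := by omega
  have a2 : z + 1 ≠ 0 := by omega
  have a3 : z - 1 ≠ 0 := by omega
  have a4 : z - 3 ≠ 0 := by omega
  simp [del, a1, a2, a3, a4]

lemma h_sum (w : ℝ) (hw : w ≠ 0) :
    ∑ z ∈ Finset.Icc (-3 : ℤ) 3, h 0 z * w ^ z = (w⁻¹ - w) ^ 3 := by
  have e : Finset.Icc (-3 : ℤ) 3 = {-3, -2, -1, 0, 1, 2, 3} := by decide
  rw [e]
  simp only [h_zero]
  rw [Finset.sum_insert (by decide), Finset.sum_insert (by decide), Finset.sum_insert (by decide),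
    Finset.sum_insert (by decide), Finset.sum_insert (by decide), Finset.sum_insert (by decide),
    Finset.sum_singleton]
  norm_num [del]
  field_simp
  ring

lemma exists_c (s : ℝ) (hs : 2 < s) : ∃ c : ℝ, 1 < c ∧ c + c⁻¹ = s := by
  have h0 : 0 ≤ s ^ 2 - 4 := by nlinarith
  have hr := Real.sq_sqrt h0
  have hr0 := Real.sqrt_nonneg (s ^ 2 - 4)
  have hc : 1 < (s + √(s ^ 2 - 4)) / 2 := by linarith
  refine ⟨(s + √(s ^ 2 - 4)) / 2, hc, ?_⟩
  have h1 : ((s + √(s ^ 2 - 4)) / 2)⁻¹ = (s - √(s ^ 2 - 4)) / 2 := by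
    refine inv_eq_of_mul_eq_one_right ?_
    nlinarith
  rw [h1]
  ring

/-- Task 15. -/
theorem main (hF1 : TaskF1) : Pool.Agent.H289SM.TaskF3 := by
  intro d hd
  by_contra hcon
  push Not at hcon
  have hd0 : 0 < d := by omega
  obtain ⟨hsum, hlap⟩ := hF1 d hd0
  -- finite support
  have hfin : (Function.support (FZ d)).Finite := by
    have h1 := hsum.tendsto_cofinite_zero
    have h2 : ∀ᶠ x in Filter.cofinite, |FZ d x| < 1 := h1.eventually_lt_const (by norm_num)
    refine (Filter.eventually_cofinite.1 h2).subset ?_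
    intro x hx
    rw [Set.mem_ofPred_eq, not_lt]
    obtain ⟨k, hk⟩ := hcon x
    rw [hk]
    have hk0 : k ≠ 0 := by
      rintro rfl
      exact hx (by simpa using hk)
    exact_mod_cast Int.one_le_abs hk0
  -- the weights
  have hd1 : (0 : ℝ) < (d : ℝ) - 1 := by
    have : (2 : ℝ) ≤ d := by exact_mod_cast hd
    linarith
  obtain ⟨c, hc1, hcs⟩ := exists_c ((2 * d + 5 / 2) / ((d : ℝ) - 1)) (by
    rw [lt_div_iff₀ hd1]; linarith)
  set i₀ : Fin d := ⟨0, hd0⟩ with hi₀
  set w : Fin d → ℝ := fun i => if i = i₀ then -2 else c with hwdef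
  have hw : ∀ i, w i ≠ 0 := by
    intro i
    simp only [hwdef]
    split_ifs
    · norm_num
    · linarith
  have hw' : ∀ i, ((w i)⁻¹ - w i) ^ 3 ≠ 0 := by
    intro i
    refine pow_ne_zero _ ?_
    simp only [hwdef]
    split_ifs
    · norm_num
    · have : c⁻¹ < 1 := inv_lt_one_of_one_lt₀ hc1
      linarith
  have hwsum : ∑ i, ((w i)⁻¹ + w i) = 2 * d := by
    have h1 : ∀ i, (w i)⁻¹ + w i = (if i = i₀ then (-(5 / 2) - (c + c⁻¹) : ℝ) else 0) + (c + c⁻¹) := by
      intro i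
      simp only [hwdef]
      split_ifs
      · norm_num
      · ring
    simp_rw [h1]
    rw [Finset.sum_add_distrib, Finset.sum_ite_eq' Finset.univ i₀]
    simp only [Finset.mem_univ, if_true, Finset.sum_const, Finset.card_univ, Fintype.card_fin,
      nsmul_eq_mul]
    rw [hcs]
    field_simp
    ring
  -- the two sums
  obtain ⟨S, hS⟩ : ∃ S, HasSum (fun x => FZ d x * W w x) S := by
    refine ⟨_, (summable_of_finite_support (hfin.subset ?_)).hasSum⟩
    intro x hx hx'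
    exact hx (by simp [hx'])
  have hL : HasSum (fun x => (∑ i, (FZ d (x + Pi.single i 1) + FZ d (x - Pi.single i 1)) -
      2 * d * FZ d x) * W w x) (∑ i, ((w i)⁻¹ * S + w i * S) - 2 * d * S) := by
    have h1 := (hasSum_sum (s := Finset.univ) fun i _ =>
      (hs_add (FZ d) w hw S hS i).add (hs_sub (FZ d) w hw S hS i)).sub (hS.mul_left (2 * (d : ℝ)))
    refine h1.congr_fun ?_
    intro x
    simp only [sub_mul, Finset.sum_mul, add_mul, mul_assoc]
  have hL0 : ∑ i, ((w i)⁻¹ * S + w i * S) - 2 * d * S = 0 := by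
    simp_rw [← add_mul]
    rw [← Finset.sum_mul, hwsum]
    ring
  have hR : HasSum (fun x => - gg (fun _ : Fin d => 0) x * W w x) (-∏ i, ((w i)⁻¹ - w i) ^ 3) := by
    have h1 : ∀ x : Fin d → ℤ, - gg (fun _ : Fin d => 0) x * W w x =
        - ∏ i, (h 0 (x i) * w i ^ x i) := by
      intro x
      unfold gg W
      rw [Finset.prod_mul_distrib]
      ring
    simp_rw [h1]
    have h2 : ∏ i, ((w i)⁻¹ - w i) ^ 3 =
        ∑ x ∈ Fintype.piFinset (fun _ : Fin d => Finset.Icc (-3 : ℤ) 3),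
          ∏ i, (h 0 (x i) * w i ^ x i) := by
      rw [← Finset.prod_univ_sum (fun _ : Fin d => Finset.Icc (-3 : ℤ) 3)
        (fun i z => h 0 z * w i ^ z)]
      exact Finset.prod_congr rfl fun i _ => (h_sum (w i) (hw i)).symm
    rw [h2, ← Finset.sum_neg_distrib]
    refine hasSum_sum_of_ne_finset_zero fun x hx => ?_
    rw [Fintype.mem_piFinset] at hx
    push Not at hx
    obtain ⟨i, hi⟩ := hx
    rw [Finset.prod_eq_zero (Finset.mem_univ i) (by rw [h_out _ hi, zero_mul]), neg_zero]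
  have hLR : (fun x => (∑ i, (FZ d (x + Pi.single i 1) + FZ d (x - Pi.single i 1)) -
      2 * d * FZ d x) * W w x) = fun x => - gg (fun _ : Fin d => 0) x * W w x := by
    ext x
    rw [hlap x]
  rw [hL0, hLR] at hL
  have h3 := hL.unique hR
  have h4 : ∏ i, ((w i)⁻¹ - w i) ^ 3 ≠ 0 := Finset.prod_ne_zero_iff.2 fun i _ => hw' i
  exact h4 (by linarith)

end Pool.Agent.H289SM.TaskF3
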