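import Pool.Agent.H289SM.Stmts

set_option autoImplicit false

namespace Pool.Agent.H289SM.TaskG1

open Pool.Agent.H289SM

theorem hasSum_prod (d : ℕ) : ∀ (u : Fin d → ℤ → ℝ), (∀ i, Summable fun z => |u i z|) →
    HasSum (fun x : Fin d → ℤ => |∏ i, u i (x i)|) (∏ i, ∑' z, |u i z|) := by
  induction d with
  | zero =>
    intro u _
    simp
  | succ n ih =>
    intro u hu
    have h1 := (hu 0).hasSum
    have h2 := ih (fun i => u i.succ) fun i => hu i.succ
    have h3 : Summable fun x : ℤ × (Fin n → ℤ) => |u 0 x.1| * |∏ i : Fin n, u i.succ (x.2 i)| :=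
      h1.summable.mul_of_nonneg h2.summable (fun _ => abs_nonneg _) fun _ => abs_nonneg _
    have h4 := h1.mul h2 h3
    rw [← (Fin.consEquiv fun _ : Fin (n + 1) => ℤ).hasSum_iff, Fin.prod_univ_succ]
    refine h4.congr_fun ?_
    rintro ⟨z, x⟩
    simp only [Function.comp, Fin.consEquiv_apply, Fin.prod_univ_succ, Fin.cons_zero, Fin.cons_succ,
      abs_mul]

theorem main : TaskG1 := fun d u hu =>
  ⟨(hasSum_prod d u hu).summable, (hasSum_prod d u hu).tsum_eq⟩

end Pool.Agent.H289SM.TaskG1
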