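import Pool.Agent.H289SM.Stmts

set_option autoImplicit false

open scoped BigOperators ENNReal
open MeasureTheory Filter Topology Classical
open Pool.Agent.RW114

namespace Pool.Agent.H289SM.TaskG2

theorem main (hH : Pool.Agent.H289SM.TaskH3) (hG : Pool.Agent.H289SM.TaskG1) :
    Pool.Agent.H289SM.TaskG2 := by
  intro d hd
  obtain ⟨C₀, hC₀, hC⟩ := hH
  set K : ℝ := max C₀ 1 with hK
  have hK1 : 1 ≤ K := le_max_right _ _
  have hK0 : C₀ ≤ K := le_max_left _ _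
  have hKp : 0 < K := lt_of_lt_of_le one_pos hK1
  have hd0 : (0 : ℝ) < d := by exact_mod_cast hd
  refine ⟨K ^ d * (d * √(d : ℝ)), by positivity, fun n => ?_⟩
  obtain ⟨h1, h2⟩ := hG d (fun i => h (n i)) (fun i => (hC (n i)).1)
  refine ⟨h1, ?_⟩
  have h3 : ∑' x, |gg n x| = ∏ i, ∑' z, |h (n i) z| := h2
  rw [h3]
  set N : ℕ := ∑ i, n i with hN
  haveI : Nonempty (Fin d) := ⟨⟨0, hd⟩⟩
  obtain ⟨i0, -, hi0⟩ : ∃ i ∈ (Finset.univ : Finset (Fin d)), N ≤ d * n i := by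
    apply Finset.exists_le_of_sum_le Finset.univ_nonempty
    rw [Finset.sum_const, Finset.card_univ, Fintype.card_fin, ← Finset.mul_sum, smul_eq_mul]
  have hb : ∀ k : ℕ, 0 ≤ ∑' z, |h k z| := fun k => tsum_nonneg fun z => abs_nonneg _
  have hle : ∀ k : ℕ, ∑' z, |h k z| ≤ K := by
    intro k
    refine (hC k).2.trans ?_
    have h4 : (1 : ℝ) ≤ ((k : ℝ) + 1) * √((k : ℝ) + 1) := by
      have h5 : (1 : ℝ) ≤ (k : ℝ) + 1 := by
        have : (0 : ℝ) ≤ k := Nat.cast_nonneg k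
        linarith
      have h6 : (1 : ℝ) ≤ √((k : ℝ) + 1) := Real.one_le_sqrt.2 h5
      nlinarith
    calc C₀ / (((k : ℝ) + 1) * √((k : ℝ) + 1)) ≤ C₀ / 1 :=
          div_le_div_of_nonneg_left hC₀.le one_pos h4
      _ ≤ K := by rw [div_one]; exact hK0
  have hi : ∑' z, |h (n i0) z| ≤ K * (d * √(d : ℝ)) / (((N : ℝ) + 1) * √((N : ℝ) + 1)) := by
    refine (hC (n i0)).2.trans ?_
    have h5 : (N : ℝ) + 1 ≤ d * ((n i0 : ℝ) + 1) := by
      have h6 : (N : ℝ) ≤ d * n i0 := by exact_mod_cast hi0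
      have h7 : (1 : ℝ) ≤ d := by exact_mod_cast hd
      nlinarith
    have h8 : √((N : ℝ) + 1) ≤ √(d : ℝ) * √((n i0 : ℝ) + 1) := by
      rw [← Real.sqrt_mul hd0.le]
      exact Real.sqrt_le_sqrt h5
    have hNp : (0 : ℝ) < (N : ℝ) + 1 := by positivity
    have hnp : (0 : ℝ) < (n i0 : ℝ) + 1 := by positivity
    rw [div_le_div_iff₀ (by positivity) (by positivity)]
    have h9 : ((N : ℝ) + 1) * √((N : ℝ) + 1) ≤
        (d * ((n i0 : ℝ) + 1)) * (√(d : ℝ) * √((n i0 : ℝ) + 1)) :=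
      mul_le_mul h5 h8 (Real.sqrt_nonneg _) (by positivity)
    calc C₀ * (((N : ℝ) + 1) * √((N : ℝ) + 1))
        ≤ K * ((d * ((n i0 : ℝ) + 1)) * (√(d : ℝ) * √((n i0 : ℝ) + 1))) :=
          mul_le_mul hK0 h9 (by positivity) hKp.le
      _ = K * (d * √(d : ℝ)) * (((n i0 : ℝ) + 1) * √((n i0 : ℝ) + 1)) := by ring
  rw [← Finset.mul_prod_erase Finset.univ _ (Finset.mem_univ i0)]
  have hcard : (Finset.univ.erase i0).card = d - 1 := by
    rw [Finset.card_erase_of_mem (Finset.mem_univ i0), Finset.card_univ, Fintype.card_fin]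
  have hprod : ∏ i ∈ Finset.univ.erase i0, ∑' z, |h (n i) z| ≤ K ^ (d - 1) := by
    calc ∏ i ∈ Finset.univ.erase i0, ∑' z, |h (n i) z| ≤ ∏ _i ∈ Finset.univ.erase i0, K :=
          Finset.prod_le_prod (fun i _ => hb _) fun i _ => hle _
      _ = K ^ (d - 1) := by rw [Finset.prod_const, hcard]
  have hKd : K ^ d = K ^ (d - 1) * K := by
    rw [← pow_succ]
    congr 1
    omega
  calc (∑' z, |h (n i0) z|) * ∏ i ∈ Finset.univ.erase i0, ∑' z, |h (n i) z|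
      ≤ (K * (d * √(d : ℝ)) / (((N : ℝ) + 1) * √((N : ℝ) + 1))) * K ^ (d - 1) :=
        mul_le_mul hi hprod (Finset.prod_nonneg fun i _ => hb _) (by positivity)
    _ = K ^ d * (d * √(d : ℝ)) / (((N : ℝ) + 1) * √((N : ℝ) + 1)) := by
        rw [hKd]
        ring

end Pool.Agent.H289SM.TaskG2
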