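import Pool.Agent.H289SM.Stmts

set_option autoImplicit false

open scoped BigOperators ENNReal
open MeasureTheory Filter Topology Classical

namespace Pool.Agent.H289SM.TaskG3

open Pool.Agent.H289SM

lemma split {d : ℕ} (n : Fin d → ℕ) (y : Fin d → ℤ) (i : Fin d) :
    gg n y = h (n i) (y i) * ∏ j ∈ Finset.univ.erase i, h (n j) (y j) := by
  unfold gg
  exact (Finset.mul_prod_erase Finset.univ (fun j => h (n j) (y j)) (Finset.mem_univ i)).symm

lemma B_h (k : ℕ) (z : ℤ) : h (k + 1) z = (h k (z + 1) + h k (z - 1)) / 2 := by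
  unfold h
  rw [Function.iterate_succ_apply']
  rfl

lemma one {d : ℕ} (n : Fin d → ℕ) (x : Fin d → ℤ) (i : Fin d) :
    (gg n (x + Pi.single i 1) + gg n (x - Pi.single i 1)) / 2 = gg (n + Pi.single i 1) x := by
  rw [split n (x + Pi.single i 1) i, split n (x - Pi.single i 1) i, split (n + Pi.single i 1) x i]
  have e1 : ∏ j ∈ Finset.univ.erase i, h (n j) ((x + Pi.single i 1 : Fin d → ℤ) j) =
      ∏ j ∈ Finset.univ.erase i, h (n j) (x j) := by
    refine Finset.prod_congr rfl fun j hj => ?_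
    rw [Pi.add_apply, Pi.single_eq_of_ne (Finset.ne_of_mem_erase hj), add_zero]
  have e2 : ∏ j ∈ Finset.univ.erase i, h (n j) ((x - Pi.single i 1 : Fin d → ℤ) j) =
      ∏ j ∈ Finset.univ.erase i, h (n j) (x j) := by
    refine Finset.prod_congr rfl fun j hj => ?_
    rw [Pi.sub_apply, Pi.single_eq_of_ne (Finset.ne_of_mem_erase hj), sub_zero]
  have e3 : ∏ j ∈ Finset.univ.erase i, h ((n + Pi.single i 1 : Fin d → ℕ) j) (x j) =
      ∏ j ∈ Finset.univ.erase i, h (n j) (x j) := by
    refine Finset.prod_congr rfl fun j hj => ?_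
    rw [Pi.add_apply, Pi.single_eq_of_ne (Finset.ne_of_mem_erase hj), add_zero]
  rw [e1, e2, e3, Pi.add_apply, Pi.sub_apply, Pi.add_apply, Pi.single_eq_same, Pi.single_eq_same,
    B_h]
  ring

theorem main : Pool.Agent.H289SM.TaskG3 := by
  intro d n x
  unfold Aop
  congr 1
  exact Finset.sum_congr rfl fun i _ => one n x i

end Pool.Agent.H289SM.TaskG3
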