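import Pool.Agent.H289SM.Stmts

set_option autoImplicit false

open scoped BigOperators ENNReal
open MeasureTheory Filter Topology Classical

namespace Pool.Agent.H289SM.TaskG4

private theorem Aop_sum {d : ℕ} (fs : Fin d → (Fin d → ℤ) → ℝ) (x : Fin d → ℤ) :
    Aop (fun x => (∑ i, fs i x) / d) x = (∑ i, Aop (fs i) x) / d := by
  unfold Aop
  congr 1
  have h : ∀ j : Fin d, ((∑ i, fs i (x + Pi.single j 1)) / (d : ℝ) +
      (∑ i, fs i (x - Pi.single j 1)) / d) / 2 =
      ∑ i, ((fs i (x + Pi.single j 1) + fs i (x - Pi.single j 1)) / 2) / d := by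
    intro j
    rw [← Finset.sum_div, ← Finset.sum_div, Finset.sum_add_distrib]
    ring
  rw [Finset.sum_congr rfl fun j _ => h j, Finset.sum_comm]
  refine Finset.sum_congr rfl fun i _ => ?_
  rw [Finset.sum_div]

private theorem iter {d : ℕ} (t : ℕ) : ∀ fs : Fin d → (Fin d → ℤ) → ℝ,
    Aop^[t] (fun x => (∑ i, fs i x) / d) = fun x => (∑ i, Aop^[t] (fs i) x) / d := by
  induction t with
  | zero => intro fs; rfl
  | succ t ih =>
    intro fs
    rw [Function.iterate_succ_apply]
    have h : Aop (fun x => (∑ i, fs i x) / (d : ℝ)) = fun x => (∑ i, Aop (fs i) x) / d := by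
      funext x
      exact Aop_sum fs x
    rw [h, ih (fun i => Aop (fs i))]
    rfl

theorem main (hG2 : TaskG2) (hG3 : TaskG3) : Pool.Agent.H289SM.TaskG4 := by
  intro d hd
  obtain ⟨C, hC, hg⟩ := hG2 d hd
  refine ⟨C, hC, ?_⟩
  have key : ∀ (t : ℕ) (m : Fin d → ℕ), Summable (fun x => |Aop^[t] (gg m) x|) ∧
      ∑' x, |Aop^[t] (gg m) x| ≤
        C / ((((∑ i, m i + t : ℕ) : ℝ) + 1) * √(((∑ i, m i + t : ℕ) : ℝ) + 1)) := by
    intro t
    induction t with
    | zero =>
      intro m
      simpa using hg m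
    | succ t ih =>
      intro m
      have h1 : Aop (gg m) = fun x => (∑ i, gg (m + Pi.single i 1) x) / d := by
        funext x
        exact hG3 d m x
      have h2 : Aop^[t + 1] (gg m) =
          fun x => (∑ i, Aop^[t] (gg (m + Pi.single i 1)) x) / d := by
        rw [Function.iterate_succ_apply, h1, iter t]
      have hsum : ∀ i : Fin d, ∑ j, (m + Pi.single i 1 : Fin d → ℕ) j + t = ∑ j, m j + (t + 1) := by
        intro i
        simp only [Pi.add_apply, Finset.sum_add_distrib, Finset.sum_pi_single',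
          Finset.mem_univ, if_true]
        ring
      have hd' : (0 : ℝ) < d := by exact_mod_cast hd
      have h3 : ∀ x, |Aop^[t + 1] (gg m) x| ≤
          (∑ i, |Aop^[t] (gg (m + Pi.single i 1)) x|) / d := by
        intro x
        rw [h2]
        simp only
        rw [abs_div, abs_of_pos hd']
        exact div_le_div_of_nonneg_right (Finset.abs_sum_le_sum_abs _ _) hd'.le
      have h4 : Summable fun x => (∑ i, |Aop^[t] (gg (m + Pi.single i 1)) x|) / d :=
        (summable_sum fun i _ => (ih (m + Pi.single i 1)).1).div_const _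
      have h5 : Summable fun x => |Aop^[t + 1] (gg m) x| :=
        Summable.of_nonneg_of_le (fun _ => abs_nonneg _) h3 h4
      refine ⟨h5, ?_⟩
      refine (h5.tsum_le_tsum h3 h4).trans ?_
      have h7 : ∑' x, ∑ i, |Aop^[t] (gg (m + Pi.single i 1)) x| =
          ∑ i, ∑' x, |Aop^[t] (gg (m + Pi.single i 1)) x| :=
        Summable.tsum_finsetSum (s := Finset.univ)
          (f := fun (i : Fin d) x => |Aop^[t] (gg (m + Pi.single i 1)) x|)
          (fun i _ => (ih (m + Pi.single i 1)).1)
      rw [tsum_div_const, h7]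
      have h6 : ∑ i : Fin d, ∑' x, |Aop^[t] (gg (m + Pi.single i 1)) x| ≤
          ∑ _i : Fin d, C / ((((∑ i, m i + (t + 1) : ℕ) : ℝ) + 1) *
            √(((∑ i, m i + (t + 1) : ℕ) : ℝ) + 1)) := by
        refine Finset.sum_le_sum fun i _ => ?_
        have := (ih (m + Pi.single i 1)).2
        rwa [hsum i] at this
      rw [Finset.sum_const, Finset.card_univ, Fintype.card_fin, nsmul_eq_mul] at h6
      rw [div_le_iff₀ hd', mul_comm]
      exact h6
  intro t
  have h := key t (fun _ => 0)
  simpa using h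

end Pool.Agent.H289SM.TaskG4
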