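import Pool.Agent.H289SM.Stmts

/-!
# MP_c09afc_pr, task `TaskH1`: the central binomial coefficients
-/

set_option autoImplicit false

open scoped BigOperators ENNReal
open MeasureTheory Filter Topology Classical

namespace Pool.Agent.H289SM.TaskH1

theorem central (n : ℕ) : (2 * n + 1) * n.centralBinom ^ 2 ≤ 16 ^ n := by
  induction n with
  | zero => simp [Nat.centralBinom]
  | succ n ih =>
    have h := Nat.succ_mul_centralBinom_succ n
    generalize (n + 1).centralBinom = c' at *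
    generalize n.centralBinom = c at *
    have hpos : 0 < (n + 1) ^ 2 := by positivity
    refine Nat.le_of_mul_le_mul_left ?_ hpos
    calc (n + 1) ^ 2 * ((2 * (n + 1) + 1) * c' ^ 2)
        = (2 * n + 3) * ((n + 1) * c') ^ 2 := by ring
      _ = (4 * (2 * n + 3) * (2 * n + 1)) * ((2 * n + 1) * c ^ 2) := by rw [h]; ring
      _ ≤ (4 * (2 * n + 3) * (2 * n + 1)) * 16 ^ n := Nat.mul_le_mul_left _ ih
      _ ≤ (16 * (n + 1) ^ 2) * 16 ^ n := by
        refine Nat.mul_le_mul_right _ ?_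
        nlinarith
      _ = (n + 1) ^ 2 * 16 ^ (n + 1) := by ring

theorem middle (m : ℕ) : (m + 1) * (m.choose (m / 2)) ^ 2 ≤ 4 ^ m := by
  rcases Nat.even_or_odd' m with ⟨n, rfl | rfl⟩
  · have h := central n
    rw [Nat.centralBinom] at h
    rw [Nat.mul_div_cancel_left n (by norm_num : 0 < 2)]
    calc (2 * n + 1) * ((2 * n).choose n) ^ 2 ≤ 16 ^ n := h
      _ = 4 ^ (2 * n) := by rw [pow_mul]; norm_num
  · have h := central (n + 1)
    have h2 : (2 * n + 1) / 2 = n := by omega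
    rw [h2]
    have h3 : (n + 1).centralBinom = 2 * (2 * n + 1).choose n := by
      have e1 : (n + 1).centralBinom = (2 * n + 1 + 1).choose (n + 1) := by
        rw [Nat.centralBinom]; congr 1
      rw [e1, Nat.choose_succ_succ, Nat.choose_symm_half]
      ring
    rw [h3] at h
    have h4 : (16 : ℕ) ^ (n + 1) = 4 * 4 ^ (2 * n + 1) := by
      rw [pow_succ, pow_succ, pow_mul]; norm_num; ring
    rw [h4] at h
    have h5 : 4 * ((2 * n + 1 + 1) * ((2 * n + 1).choose n) ^ 2) ≤ 4 * 4 ^ (2 * n + 1) := by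
      refine le_trans ?_ h
      have e2 : (2 * (n + 1) + 1) * (2 * (2 * n + 1).choose n) ^ 2 =
        4 * ((2 * n + 1 + 1) * ((2 * n + 1).choose n) ^ 2) + 4 * ((2 * n + 1).choose n) ^ 2 := by
        ring
      rw [e2]
      exact Nat.le_add_right _ _
    exact Nat.le_of_mul_le_mul_left h5 (by norm_num)

theorem main : Pool.Agent.H289SM.TaskH1 := by
  intro m
  have hpos : (0 : ℝ) < (m : ℝ) + 1 := by positivity
  rw [le_div_iff₀ (Real.sqrt_pos.2 hpos)]
  have h : ((m : ℝ) + 1) * ((m.choose (m / 2) : ℕ) : ℝ) ^ 2 ≤ 4 ^ m := by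
    exact_mod_cast middle m
  have h4 : (0 : ℝ) < 4 ^ m := by positivity
  rw [← pow_le_pow_iff_left₀ (by positivity) (by positivity) (two_ne_zero)]
  calc (((m.choose (m / 2) : ℕ) : ℝ) * √((m : ℝ) + 1)) ^ 2
      = ((m : ℝ) + 1) * ((m.choose (m / 2) : ℕ) : ℝ) ^ 2 := by
        rw [mul_pow, Real.sq_sqrt hpos.le]; ring
    _ ≤ 4 ^ m := h
    _ ≤ 4 * 4 ^ m := by linarith
    _ = (2 * 2 ^ m) ^ 2 := by
        rw [mul_pow, ← pow_mul, mul_comm m 2, pow_mul]; norm_num

end Pool.Agent.H289SM.TaskH1
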