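import Pool.Agent.H289SM.Stmts

set_option autoImplicit false

open scoped BigOperators

namespace Pool.Agent.H289SM.TaskH2

open Pool.Agent.H289SM Finset

/-- coefficients of `B^m D` -/
noncomputable def a : ℕ → ℕ → ℝ
  | 0, 0 => 1
  | 0, 1 => -1
  | 0, (_ + 2) => 0
  | (m + 1), 0 => a m 0
  | (m + 1), (j + 1) => a m (j + 1) + a m j

theorem a_zero (m : ℕ) : a m 0 = 1 := by
  induction m with
  | zero => simp [a]
  | succ m ih => simp [a, ih]

theorem a_succ (m j : ℕ) : a m (j + 1) = (m.choose (j + 1) : ℝ) - (m.choose j : ℝ) := by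
  induction m generalizing j with
  | zero =>
    cases j with
    | zero => simp [a]
    | succ j => simp [a]
  | succ m ih =>
    have h1 : a (m + 1) (j + 1) = a m (j + 1) + a m j := by rw [a]
    rw [h1, ih j]
    cases j with
    | zero => rw [a_zero]; simp
    | succ j =>
      rw [ih j, Nat.choose_succ_succ m (j + 1), Nat.choose_succ_succ m j]
      push_cast
      ring

theorem form (m : ℕ) (f : ℤ → ℝ) (z : ℤ) :
    B^[m] (Dd f) z = (∑ j ∈ range (m + 2), a m j * f (z + (m + 1 - 2 * j))) / 2 ^ m := by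
  induction m generalizing z with
  | zero =>
    simp only [Function.iterate_zero, id, Dd, Finset.sum_range_succ, Finset.sum_range_zero, a]
    have e1 : z + ((0 : ℕ) + 1 - 2 * ((0 : ℕ) : ℤ)) = z + 1 := by push_cast; ring
    have e2 : z + ((0 : ℕ) + 1 - 2 * ((0 + 1 : ℕ) : ℤ)) = z - 1 := by push_cast; ring
    simp only [e1]
    rw [show z + (((0 : ℕ) : ℤ) + 1 - 2 * ((1 : ℕ) : ℤ)) = z - 1 by push_cast; ring]
    ring
  | succ m ih =>
    rw [Function.iterate_succ_apply', B, ih, ih]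
    rw [Finset.sum_range_succ' _ (m + 1 + 1)]
    have hl : ∀ j : ℕ, a (m + 1) (j + 1) = a m (j + 1) + a m j := fun j => by rw [a]
    have h0 : a (m + 1) 0 = a m 0 := by rw [a]
    simp only [hl, h0, add_mul, Finset.sum_add_distrib]
    have hE : (∑ j ∈ range (m + 2), a m (j + 1) *
        f (z + (((m + 1 : ℕ) : ℤ) + 1 - 2 * ((j + 1 : ℕ) : ℤ)))) +
        a m 0 * f (z + (((m + 1 : ℕ) : ℤ) + 1 - 2 * ((0 : ℕ) : ℤ))) =
        ∑ j ∈ range (m + 2), a m j * f (z + 1 + ((m : ℤ) + 1 - 2 * j)) := by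
      rw [← Finset.sum_range_succ' (fun j => a m j * f (z + (((m + 1 : ℕ) : ℤ) + 1 - 2 * (j : ℤ))))
        (m + 2), Finset.sum_range_succ]
      have hz : a m (m + 2) = 0 := by
        rw [a_succ, Nat.choose_eq_zero_of_lt (by omega), Nat.choose_eq_zero_of_lt (by omega)]
        simp
      rw [hz, zero_mul, add_zero]
      refine Finset.sum_congr rfl fun j _ => ?_
      congr 2
      push_cast
      ring
    have hF : (∑ j ∈ range (m + 2), a m j *
        f (z + (((m + 1 : ℕ) : ℤ) + 1 - 2 * ((j + 1 : ℕ) : ℤ)))) =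
        ∑ j ∈ range (m + 2), a m j * f (z - 1 + ((m : ℤ) + 1 - 2 * j)) := by
      refine Finset.sum_congr rfl fun j _ => ?_
      congr 2
      push_cast
      ring
    rw [← hE, ← hF, pow_succ]
    field_simp
    push_cast
    ring

theorem inc (m k : ℕ) (hk : k ≤ m / 2) : ∑ j ∈ range (k + 1), |a m j| = (m.choose k : ℝ) := by
  induction k with
  | zero => simp [a_zero]
  | succ k ih =>
    rw [Finset.sum_range_succ, ih (by omega), a_succ, abs_of_nonneg]
    · ring
    · have := Nat.choose_le_succ_of_lt_half_left (r := k) (n := m) (by omega)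
      have h2 : (m.choose k : ℝ) ≤ (m.choose (k + 1) : ℝ) := by exact_mod_cast this
      linarith

theorem dec (m j : ℕ) (hj : m / 2 ≤ j) : (m.choose (j + 1) : ℝ) ≤ (m.choose j : ℝ) := by
  have h1 : m.choose (j + 1) * (j + 1) = m.choose j * (m - j) := Nat.choose_succ_right_eq m j
  have h2 : m.choose (j + 1) * (j + 1) ≤ m.choose j * (j + 1) := by
    rw [h1]; exact Nat.mul_le_mul_left _ (by omega)
  have h3 := Nat.le_of_mul_le_mul_right h2 (by omega)
  exact_mod_cast h3

theorem tot' (m i : ℕ) : ∑ j ∈ range (m / 2 + 1 + i), |a m j| =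
    2 * (m.choose (m / 2) : ℝ) - (m.choose (m / 2 + i) : ℝ) := by
  induction i with
  | zero => rw [add_zero, inc m (m / 2) le_rfl, add_zero]; ring
  | succ i ih =>
    rw [show m / 2 + 1 + (i + 1) = (m / 2 + 1 + i) + 1 by ring, Finset.sum_range_succ, ih,
      show m / 2 + 1 + i = (m / 2 + i) + 1 by ring, a_succ, abs_of_nonpos]
    · rw [show m / 2 + (i + 1) = m / 2 + i + 1 by ring]; ring
    · have := dec m (m / 2 + i) (by omega)
      linarith

theorem tot (m : ℕ) : ∑ j ∈ range (m + 2), |a m j| ≤ 2 * (m.choose (m / 2) : ℝ) := by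
  have h := tot' m (m + 1 - m / 2)
  rw [show m / 2 + 1 + (m + 1 - m / 2) = m + 2 by omega] at h
  rw [h]
  have : (0 : ℝ) ≤ (m.choose (m / 2 + (m + 1 - m / 2)) : ℝ) := Nat.cast_nonneg _
  linarith

theorem main : Pool.Agent.H289SM.TaskH2 := by
  intro m f hf
  have hs : ∀ c : ℤ, Summable (fun z => |f (z + c)|) := fun c =>
    (Equiv.addRight c).summable_iff.2 hf
  have ht : ∀ c : ℤ, ∑' z, |f (z + c)| = ∑' z, |f z| := fun c =>
    (Equiv.addRight c).tsum_eq (fun z => |f z|)
  have hsj : ∀ j ∈ range (m + 2), Summable (fun z : ℤ => |a m j| * |f (z + (m + 1 - 2 * j))|) :=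
    fun j _ => (hs _).mul_left _
  have hg : Summable (fun z : ℤ => (∑ j ∈ range (m + 2), |a m j| * |f (z + (m + 1 - 2 * j))|) / 2 ^ m) :=
    (summable_sum hsj).div_const _
  have hle : ∀ z : ℤ, |B^[m] (Dd f) z| ≤
      (∑ j ∈ range (m + 2), |a m j| * |f (z + (m + 1 - 2 * j))|) / 2 ^ m := by
    intro z
    rw [form, abs_div, abs_of_pos (show (0 : ℝ) < 2 ^ m by positivity)]
    refine div_le_div_of_nonneg_right ((Finset.abs_sum_le_sum_abs _ _).trans_eq ?_) (by positivity)
    exact Finset.sum_congr rfl fun j _ => abs_mul _ _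
  have hsum : Summable (fun z => |B^[m] (Dd f) z|) :=
    Summable.of_nonneg_of_le (fun _ => abs_nonneg _) hle hg
  refine ⟨hsum, (hsum.tsum_le_tsum hle hg).trans ?_⟩
  rw [tsum_div_const, Summable.tsum_finsetSum hsj]
  have h1 : ∑ j ∈ range (m + 2), ∑' z : ℤ, |a m j| * |f (z + (m + 1 - 2 * j))| =
      (∑ j ∈ range (m + 2), |a m j|) * ∑' z, |f z| := by
    rw [Finset.sum_mul]
    refine Finset.sum_congr rfl fun j _ => ?_
    rw [tsum_mul_left, ht]
  rw [h1]
  have h2 : (0 : ℝ) ≤ ∑' z, |f z| := tsum_nonneg fun _ => abs_nonneg _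
  have h3 := mul_le_mul_of_nonneg_right (tot m) h2
  refine (div_le_div_of_nonneg_right h3 (by positivity)).trans_eq ?_
  rw [div_mul_eq_mul_div]

end Pool.Agent.H289SM.TaskH2
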