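import Pool.Agent.H289SM.Stmts

set_option autoImplicit false

open scoped BigOperators
open Filter Topology

namespace Pool.Agent.H289SM.TaskH3

open Pool.Agent.H289SM

private lemma summable_shift {f : ℤ → ℝ} (hf : Summable f) (a : ℤ) :
    Summable (fun z => f (z + a)) :=
  ((Equiv.addRight a).summable_iff (f := f)).2 hf

private lemma tsum_shift (f : ℤ → ℝ) (a : ℤ) : ∑' z, f (z + a) = ∑' z, f z :=
  (Equiv.addRight a).tsum_eq f

private lemma B_norm {f : ℤ → ℝ} (hf : Summable (fun z => |f z|)) :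
    Summable (fun z => |B f z|) ∧ ∑' z, |B f z| ≤ ∑' z, |f z| := by
  have h1 : Summable (fun z => |f (z + 1)|) := summable_shift hf 1
  have h2 : Summable (fun z => |f (z - 1)|) := by
    simpa [sub_eq_add_neg] using summable_shift hf (-1)
  have e1 : ∑' z, |f (z + 1)| = ∑' z, |f z| := tsum_shift (fun z => |f z|) 1
  have e2 : ∑' z, |f (z - 1)| = ∑' z, |f z| := by
    simpa [sub_eq_add_neg] using tsum_shift (fun z => |f z|) (-1)
  have h3 : Summable (fun z => (|f (z + 1)| + |f (z - 1)|) / 2) := (h1.add h2).div_const 2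
  have hle : ∀ z, |B f z| ≤ (|f (z + 1)| + |f (z - 1)|) / 2 := by
    intro z
    unfold B
    rw [abs_div, abs_of_pos (by norm_num : (0 : ℝ) < 2)]
    have := abs_add_le (f (z + 1)) (f (z - 1))
    linarith
  have h4 : Summable (fun z => |B f z|) :=
    Summable.of_nonneg_of_le (fun z => abs_nonneg _) hle h3
  refine ⟨h4, (h4.tsum_le_tsum hle h3).trans ?_⟩
  rw [tsum_div_const, h1.tsum_add h2, e1, e2]
  linarith

private lemma B_iter_norm (r : ℕ) : ∀ {f : ℤ → ℝ}, Summable (fun z => |f z|) →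
    Summable (fun z => |B^[r] f z|) ∧ ∑' z, |B^[r] f z| ≤ ∑' z, |f z| := by
  induction r with
  | zero => intro f hf; exact ⟨hf, le_rfl⟩
  | succ r ih =>
    intro f hf
    obtain ⟨a1, a2⟩ := B_norm hf
    obtain ⟨b1, b2⟩ := ih a1
    rw [Function.iterate_succ_apply]
    exact ⟨b1, b2.trans a2⟩

private lemma B_Dd (f : ℤ → ℝ) : B (Dd f) = Dd (B f) := by
  funext z
  simp only [B, Dd]
  ring_nf

private lemma B_iter_Dd (m : ℕ) (f : ℤ → ℝ) : B^[m] (Dd f) = Dd (B^[m] f) := by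
  induction m with
  | zero => rfl
  | succ m ih => rw [Function.iterate_succ_apply', ih, B_Dd, Function.iterate_succ_apply']

private lemma h_eq (m r : ℕ) :
    h (r + 3 * m) = B^[r] (B^[m] (Dd (B^[m] (Dd (B^[m] (Dd del)))))) := by
  have e : h (r + 3 * m) = B^[r + (m + (m + m))] (Dd (Dd (Dd del))) := by
    unfold h
    rw [show r + 3 * m = r + (m + (m + m)) by ring]
    rfl
  rw [e, Function.iterate_add_apply, Function.iterate_add_apply, Function.iterate_add_apply]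
  congr 2
  rw [B_iter_Dd m (Dd (Dd del)), B_iter_Dd m (Dd del)]
  exact B_iter_Dd m _

private lemma del_norm : Summable (fun z => |del z|) ∧ ∑' z, |del z| = 1 := by
  have e : (fun z => |del z|) = fun z : ℤ => if z = 0 then (1 : ℝ) else 0 := by
    funext z; unfold del; split_ifs <;> simp
  rw [e]
  refine ⟨?_, tsum_ite_eq 0 _⟩
  exact (hasSum_ite_eq (0 : ℤ) (1 : ℝ)).summable

theorem main (h1 : TaskH1) (h2 : TaskH2) : Pool.Agent.H289SM.TaskH3 := by
  refine ⟨192 * √3, by positivity, fun k => ?_⟩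
  obtain ⟨m, r, hk, hm⟩ : ∃ m r : ℕ, k = r + 3 * m ∧ k + 1 ≤ 3 * (m + 1) :=
    ⟨k / 3, k % 3, by omega, by omega⟩
  set c : ℝ := 2 * (m.choose (m / 2) : ℕ) / 2 ^ m with hc
  have hc0 : 0 ≤ c := by positivity
  obtain ⟨d1, d2⟩ := del_norm
  obtain ⟨a1, a2⟩ := h2 m del d1
  obtain ⟨b1, b2⟩ := h2 m _ a1
  obtain ⟨c1, c2⟩ := h2 m _ b1
  obtain ⟨e1, e2⟩ := B_iter_norm r c1
  rw [← hc] at a2 b2 c2
  rw [hk, h_eq m r]
  refine ⟨e1, e2.trans (c2.trans ?_)⟩
  have hN : ∑' z, |B^[m] (Dd (B^[m] (Dd del))) z| ≤ c * c := by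
    refine b2.trans (mul_le_mul_of_nonneg_left ?_ hc0)
    rw [d2, mul_one] at a2
    exact a2
  refine (mul_le_mul_of_nonneg_left hN hc0).trans ?_
  have hcle : c ≤ 4 / √((m : ℝ) + 1) := by
    have := h1 m
    rw [hc, div_le_iff₀ (by positivity)]
    calc 2 * ((m.choose (m / 2) : ℕ) : ℝ) ≤ 2 * (2 * 2 ^ m / √((m : ℝ) + 1)) := by linarith
      _ = 4 / √((m : ℝ) + 1) * 2 ^ m := by ring
  have hm0 : (0 : ℝ) < (m : ℝ) + 1 := by positivity
  have hs0 : 0 < √((m : ℝ) + 1) := Real.sqrt_pos.2 hm0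
  have hss : √((m : ℝ) + 1) * √((m : ℝ) + 1) = (m : ℝ) + 1 := Real.mul_self_sqrt hm0.le
  have hccc : c * (c * c) ≤ 64 / (((m : ℝ) + 1) * √((m : ℝ) + 1)) := by
    have hq0 : (0 : ℝ) ≤ 4 / √((m : ℝ) + 1) := by positivity
    calc c * (c * c) ≤ (4 / √((m : ℝ) + 1)) * ((4 / √((m : ℝ) + 1)) * (4 / √((m : ℝ) + 1))) := by
          gcongr
      _ = 64 / ((√((m : ℝ) + 1) * √((m : ℝ) + 1)) * √((m : ℝ) + 1)) := by
          field_simp
          norm_num
      _ = 64 / (((m : ℝ) + 1) * √((m : ℝ) + 1)) := by rw [hss]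
  refine hccc.trans ?_
  have hkm : ((r + 3 * m : ℕ) : ℝ) + 1 ≤ 3 * ((m : ℝ) + 1) := by
    have := hm
    rw [hk] at this
    exact_mod_cast this
  set K : ℝ := ((r + 3 * m : ℕ) : ℝ) + 1 with hK
  have hK0 : 0 < K := by positivity
  have hsK : √K ≤ √3 * √((m : ℝ) + 1) := by
    rw [← Real.sqrt_mul (by norm_num)]
    exact Real.sqrt_le_sqrt hkm
  have hsK0 : 0 < √K := Real.sqrt_pos.2 hK0
  rw [div_le_div_iff₀ (by positivity) (by positivity)]
  calc 64 * (K * √K) ≤ 64 * ((3 * ((m : ℝ) + 1)) * (√3 * √((m : ℝ) + 1))) := by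
        gcongr
    _ = 192 * √3 * (((m : ℝ) + 1) * √((m : ℝ) + 1)) := by ring

end Pool.Agent.H289SM.TaskH3
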