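import Pool.Agent.H289SM.Stmts

/-!
# TaskM1: conditioning on the phase gives a new stationary measure
-/

set_option autoImplicit false

open MeasureTheory Filter Topology ProbabilityTheory

namespace Pool.Agent.H289SM.TaskM1

section

variable {Ω : Type} [MeasurableSpace Ω] {μ : Measure Ω} [IsProbabilityMeasure μ]

private lemma cond_main {S : Ω → Ω} {g : Ω → ℝ} (hg : Measurable g) (hi : Integrable g μ)
    (h0 : ∫ ω, g ω ∂μ = 0) (hne : ¬ g =ᵐ[μ] 0) (hS : μ.map S = μ)
    (hinv : ∀ᵐ ω ∂μ, g (S ω) = g ω) :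
    ∃ μ' : Measure Ω, IsProbabilityMeasure μ' ∧ μ'.map S = μ' ∧ μ' ≪ μ ∧ μ' ≠ μ := by
  have hSm : AEMeasurable S μ := by
    by_contra hc
    rw [Measure.map_of_not_aemeasurable hc] at hS
    exact IsProbabilityMeasure.ne_zero μ hS.symm
  set A : Set Ω := {ω | 0 < g ω} with hA
  have hAm : MeasurableSet A := measurableSet_lt measurable_const hg
  have hA0 : μ A ≠ 0 := by
    intro hc
    apply hne
    have h1 : ∀ᵐ ω ∂μ, g ω ≤ 0 := by
      rw [ae_iff]
      convert hc using 2
      ext ω
      simp [hA]
    have h2 : 0 ≤ᵐ[μ] fun ω => -g ω := by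
      filter_upwards [h1] with ω hω
      simpa using hω
    have h3 := (integral_eq_zero_iff_of_nonneg_ae h2 hi.neg).mp (by
      rw [integral_neg, h0, neg_zero])
    filter_upwards [h3] with ω hω
    have : -g ω = 0 := hω
    simpa using this
  have hA1 : μ Aᶜ ≠ 0 := by
    intro hc
    apply hne
    have h1 : ∀ᵐ ω ∂μ, 0 < g ω := by
      rw [ae_iff]
      exact hc
    have h2 : 0 ≤ᵐ[μ] g := by
      filter_upwards [h1] with ω hω
      exact hω.le
    exact (integral_eq_zero_iff_of_nonneg_ae h2 hi).mp h0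
  have hprob : IsProbabilityMeasure (cond μ A) := cond_isProbabilityMeasure hA0
  have hac : cond μ A ≪ μ := cond_absolutelyContinuous
  refine ⟨cond μ A, hprob, ?_, hac, ?_⟩
  · ext B hB
    rw [Measure.map_apply_of_aemeasurable (hSm.mono_ac hac) hB, cond_apply hAm, cond_apply hAm]
    congr 1
    have h1 : μ (A ∩ S ⁻¹' B) = μ (S ⁻¹' (A ∩ B)) := by
      apply measure_congr
      filter_upwards [hinv] with ω hω
      apply propext
      constructor
      · rintro ⟨ha, hb⟩
        refine ⟨?_, hb⟩
        change 0 < g (S ω)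
        rw [hω]
        exact ha
      · rintro ⟨ha, hb⟩
        refine ⟨?_, hb⟩
        change 0 < g ω
        rw [← hω]
        exact ha
    rw [h1, ← Measure.map_apply_of_aemeasurable hSm (hAm.inter hB), hS]
  · intro hc
    apply hA1
    rw [← hc, cond_apply hAm, Set.inter_compl_self, measure_empty, mul_zero]

end

theorem main : Pool.Agent.H289SM.TaskM1 := by
  intro Ω _ μ _ S T Φ β hΦ hS hT h1 h2 hβ
  have hTm : AEMeasurable T μ := by
    by_contra hc
    rw [Measure.map_of_not_aemeasurable hc] at hT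
    exact IsProbabilityMeasure.ne_zero μ hT.symm
  set h : Ω → ℂ := fun ω => Complex.exp (2 * Real.pi * Complex.I * Φ ω) with hh
  have hm : Measurable h := by
    rw [hh]
    fun_prop
  have hnorm : ∀ ω, ‖h ω‖ = 1 := by
    intro ω
    rw [hh]
    simp only
    rw [show (2 * Real.pi * Complex.I * Φ ω : ℂ) = ((2 * Real.pi * Φ ω : ℝ) : ℂ) * Complex.I by
      push_cast; ring]
    exact Complex.norm_exp_ofReal_mul_I _
  have hi : Integrable h μ := Integrable.of_bound hm.aestronglyMeasurable 1
    (Eventually.of_forall fun ω => (hnorm ω).le)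
  have hshift : ∀ (x : ℝ) (k : ℤ) (y : ℝ), y - x = k →
      Complex.exp (2 * Real.pi * Complex.I * y) = Complex.exp (2 * Real.pi * Complex.I * x) := by
    intro x k y hxy
    have e : (2 * Real.pi * Complex.I * y : ℂ) =
        2 * Real.pi * Complex.I * x + k * (2 * Real.pi * Complex.I) := by
      have : y = x + k := by linarith
      rw [this]
      push_cast
      ring
    rw [e, Complex.exp_add, Complex.exp_int_mul_two_pi_mul_I, mul_one]
  have hinv : ∀ᵐ ω ∂μ, h (S ω) = h ω := by
    filter_upwards [h1] with ω hω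
    obtain ⟨k, hk⟩ := hω
    exact hshift _ k _ hk
  have hzero : ∫ ω, h ω ∂μ = 0 := by
    have e1 : ∫ ω, h ω ∂μ = ∫ ω, h (T ω) ∂μ := by
      conv_lhs => rw [← hT]
      exact integral_map hTm hm.aestronglyMeasurable
    have e2 : ∫ ω, h (T ω) ∂μ = Complex.exp (2 * Real.pi * Complex.I * β) * ∫ ω, h ω ∂μ := by
      rw [← integral_const_mul]
      refine integral_congr_ae ?_
      filter_upwards [h2] with ω hω
      obtain ⟨k, hk⟩ := hω
      have := hshift (Φ ω + β) k (Φ (T ω)) (by linarith)
      change Complex.exp (2 * Real.pi * Complex.I * Φ (T ω)) =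
        Complex.exp (2 * Real.pi * Complex.I * β) * Complex.exp (2 * Real.pi * Complex.I * Φ ω)
      rw [this, ← Complex.exp_add]
      congr 1
      push_cast
      ring
    have hne : Complex.exp (2 * Real.pi * Complex.I * β) ≠ 1 := by
      intro hc
      obtain ⟨n, hn⟩ := Complex.exp_eq_one_iff.mp hc
      apply hβ n
      have h3 : (2 * Real.pi * Complex.I : ℂ) ≠ 0 := Complex.two_pi_I_ne_zero
      have h4 : (β : ℂ) = n := by
        apply mul_left_cancel₀ h3
        rw [hn]
        ring
      exact_mod_cast h4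
    rw [e2] at e1
    have h5 : (Complex.exp (2 * Real.pi * Complex.I * β) - 1) * ∫ ω, h ω ∂μ = 0 := by
      rw [sub_mul, one_mul, ← e1, sub_self]
    rcases mul_eq_zero.mp h5 with h6 | h6
    · exact absurd (sub_eq_zero.mp h6) hne
    · exact h6
  have hre0 : ∫ ω, (h ω).re ∂μ = 0 := by
    have := integral_re hi
    simp only [RCLike.re_to_complex] at this
    rw [this, hzero, Complex.zero_re]
  have him0 : ∫ ω, (h ω).im ∂μ = 0 := by
    have := integral_im hi
    simp only [RCLike.im_to_complex] at this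
    rw [this, hzero, Complex.zero_im]
  by_cases hcase : (fun ω => (h ω).re) =ᵐ[μ] 0
  · have hcase2 : ¬ (fun ω => (h ω).im) =ᵐ[μ] 0 := by
      intro hc
      obtain ⟨ω, h3, h4⟩ := (hcase.and hc).exists
      have h5 := hnorm ω
      have h6 : h ω = 0 := Complex.ext h3 h4
      rw [h6, norm_zero] at h5
      exact zero_ne_one h5
    exact cond_main (Complex.measurable_im.comp hm) hi.im him0 hcase2 hS
      (by filter_upwards [hinv] with ω hω; rw [Function.comp_apply, hω]; rfl)
  · exact cond_main (Complex.measurable_re.comp hm) hi.re hre0 hcase hS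
      (by filter_upwards [hinv] with ω hω; rw [Function.comp_apply, hω]; rfl)

end Pool.Agent.H289SM.TaskM1
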