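import Pool.Agent.H289SM.Stmts

set_option autoImplicit false

open scoped BigOperators ENNReal
open MeasureTheory Filter Topology Classical
open Pool.Agent.RW114

namespace Pool.Agent.H289SM.TaskP1

/-- sum over a cycle -/
theorem cyc {α : Type} [Fintype α] (τ : Equiv.Perm α) (r₀ : α) (hτ : ∀ v, ∃ n < Fintype.card α,
    (τ ^ n) r₀ = v) (g : α → ℝ) :
    ∑ i ∈ Finset.range (Fintype.card α), g ((τ ^ (i + 1)) r₀) = ∑ r, g r := by
  have himg : (Finset.range (Fintype.card α)).image (fun i => (τ ^ i) r₀) = Finset.univ := by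
    rw [Finset.eq_univ_iff_forall]
    intro v
    obtain ⟨n, hn, h⟩ := hτ v
    exact Finset.mem_image.2 ⟨n, Finset.mem_range.2 hn, h⟩
  have hinj : Set.InjOn (fun i => (τ ^ i) r₀) (Finset.range (Fintype.card α) : Set ℕ) := by
    rw [← Finset.card_image_iff, himg, Finset.card_range, Finset.card_univ]
  calc ∑ i ∈ Finset.range (Fintype.card α), g ((τ ^ (i + 1)) r₀)
      = ∑ i ∈ Finset.range (Fintype.card α), (fun r => g (τ r)) ((fun i => (τ ^ i) r₀) i) := by
        refine Finset.sum_congr rfl fun i _ => ?_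
        dsimp only
        rw [pow_succ', Equiv.Perm.mul_apply]
    _ = ∑ r, g (τ r) := by
        rw [← himg, Finset.sum_image hinj]
    _ = ∑ r, g r := Equiv.sum_comp τ g

/-- one vertex -/
theorem one {α : Type} [Fintype α] (τ : Equiv.Perm α) (hτ : ∀ u v : α, ∃ k : ℕ, (τ ^ k) u = v)
    (g : α → ℝ) (K : ℤ) (hK : ∑ r, g r = K) : ∃ φ : α → ℝ, (∀ r, |φ r| ≤ ∑ r, |g r|) ∧
    ∀ r, ∃ k : ℤ, φ (τ r) - φ r + g (τ r) = k := by
  rcases isEmpty_or_nonempty α with h0 | ⟨⟨r₀⟩⟩
  · exact ⟨fun _ => 0, fun r => (IsEmpty.false r).elim, fun r => (IsEmpty.false r).elim⟩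
  have hcyc : τ.IsCycleOn ((Finset.univ : Finset α) : Set α) := by
    refine ⟨by rw [Finset.coe_univ]; exact Set.bijOn_univ.2 τ.bijective, fun u _ v _ => ?_⟩
    obtain ⟨k, hk⟩ := hτ u v
    exact ⟨k, by rw [zpow_natCast]; exact hk⟩
  have hex : ∀ v, ∃ n < Fintype.card α, (τ ^ n) r₀ = v := fun v => by
    obtain ⟨n, hn, h⟩ := hcyc.exists_pow_eq (Finset.mem_univ r₀) (Finset.mem_univ v)
    exact ⟨n, hn, h⟩
  choose n hn hn' using hex
  have hmod : ∀ a b : ℕ, (τ ^ a) r₀ = (τ ^ b) r₀ → a ≤ b → Fintype.card α ∣ b - a := by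
    intro a b hab hle
    have h1 : (τ ^ (b - a)) r₀ = r₀ := by
      have h2 : (τ ^ a) ((τ ^ (b - a)) r₀) = (τ ^ a) r₀ := by
        rw [← Equiv.Perm.mul_apply, ← pow_add, Nat.add_sub_cancel' hle, hab]
      exact (τ ^ a).injective h2
    exact (hcyc.pow_apply_eq (Finset.mem_univ r₀)).1 h1
  refine ⟨fun r => -∑ i ∈ Finset.range (n r), g ((τ ^ (i + 1)) r₀), fun r => ?_, fun r => ?_⟩
  · rw [abs_neg]
    refine (Finset.abs_sum_le_sum_abs _ _).trans ?_
    rw [← cyc τ r₀ (fun v => ⟨n v, hn v, hn' v⟩) (fun r => |g r|)]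
    exact Finset.sum_le_sum_of_subset_of_nonneg
      (Finset.range_subset_range.2 (hn r).le) fun i _ _ => abs_nonneg _
  · have h1 : (τ ^ (n r + 1)) r₀ = τ r := by
      rw [pow_succ', Equiv.Perm.mul_apply, hn']
    have h2 := hn' (τ r)
    have hs : ∑ i ∈ Finset.range (n r + 1), g ((τ ^ (i + 1)) r₀) =
        ∑ i ∈ Finset.range (n r), g ((τ ^ (i + 1)) r₀) + g (τ r) := by
      rw [Finset.sum_range_succ, h1]
    by_cases hc : n (τ r) = n r + 1
    · refine ⟨0, ?_⟩
      dsimp only
      rw [hc, hs]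
      push_cast
      ring
    · have h3 := hn (τ r)
      have h4 := hn r
      have h5 : n r + 1 = Fintype.card α ∧ n (τ r) = 0 := by
        rcases le_total (n (τ r)) (n r + 1) with h6 | h6
        · have h7 := hmod (n (τ r)) (n r + 1) (by rw [h1, h2]) h6
          have h8 := Nat.le_of_dvd (by omega) h7
          omega
        · have h7 := hmod (n r + 1) (n (τ r)) (by rw [h1, h2]) h6
          have h8 := Nat.le_of_dvd (by omega) h7
          omega
      refine ⟨K, ?_⟩
      dsimp only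
      rw [h5.2, Finset.range_zero, Finset.sum_empty]
      have h6 := cyc τ r₀ (fun v => ⟨n v, hn v, hn' v⟩) g
      rw [← h5.1, hs, hK] at h6
      rw [← h6]
      ring

theorem main : Pool.Agent.H289SM.TaskP1 := by
  intro V G _ τ F D hτ hF hint hD
  have key : ∀ x, ∃ φ : G.neighborSet x → ℝ,
      (∀ r, |φ r| ≤ ∑ y ∈ G.neighborFinset x, |F y - F x|) ∧
      ∀ r, ∃ k : ℤ, φ (τ x r) - φ r + (F (τ x r : G.neighborSet x) - F x) = k := by
    intro x
    obtain ⟨K, hK⟩ := hint x
    have hsub : ∀ g : V → ℝ, ∑ y ∈ G.neighborFinset x, g y = ∑ r : G.neighborSet x, g r := by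
      intro g
      exact Finset.sum_subtype (G.neighborFinset x) (fun y => by simp) g
    rw [hsub] at hK
    obtain ⟨φ, h1, h2⟩ := one (τ x) (hτ x) (fun r : G.neighborSet x => F r - F x) K hK
    refine ⟨φ, fun r => ?_, h2⟩
    rw [hsub fun y => |F y - F x|]
    exact h1 r
  choose φ h1 h2 using key
  refine ⟨φ, fun x => ∑ y ∈ G.neighborFinset x, |F y - F x|, ?_, h1, fun x r => ?_⟩
  · have hs : Summable fun x => ∑ y ∈ G.neighborFinset x, |F y| := by
      refine summable_of_sum_le (c := D * ∑' y, |F y|)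
        (fun x => Finset.sum_nonneg fun y _ => abs_nonneg _) fun u => ?_
      have hcomm : ∑ x ∈ u, ∑ y ∈ G.neighborFinset x, |F y| =
          ∑ y ∈ u.biUnion fun x => G.neighborFinset x, ∑ _x ∈ u.filter fun x => G.Adj x y, |F y| := by
        refine Finset.sum_comm' fun x y => ?_
        simp only [Finset.mem_filter, Finset.mem_biUnion, SimpleGraph.mem_neighborFinset]
        constructor
        · rintro ⟨ha, hb⟩
          exact ⟨⟨ha, hb⟩, x, ha, hb⟩
        · rintro ⟨⟨ha, hb⟩, -⟩
          exact ⟨ha, hb⟩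
      rw [hcomm]
      calc ∑ y ∈ u.biUnion fun x => G.neighborFinset x, ∑ _x ∈ u.filter fun x => G.Adj x y, |F y|
          ≤ ∑ y ∈ u.biUnion fun x => G.neighborFinset x, D * |F y| := by
            refine Finset.sum_le_sum fun y _ => ?_
            rw [Finset.sum_const, nsmul_eq_mul]
            refine mul_le_mul_of_nonneg_right ?_ (abs_nonneg _)
            have h3 : (u.filter fun x => G.Adj x y) ⊆ G.neighborFinset y := by
              intro x hx
              rw [SimpleGraph.mem_neighborFinset]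
              exact (Finset.mem_filter.1 hx).2.symm
            exact_mod_cast (Finset.card_le_card h3).trans (hD y)
        _ = D * ∑ y ∈ u.biUnion fun x => G.neighborFinset x, |F y| := by rw [Finset.mul_sum]
        _ ≤ D * ∑' y, |F y| := by
            refine mul_le_mul_of_nonneg_left ?_ (Nat.cast_nonneg _)
            exact hF.sum_le_tsum _ fun y _ => abs_nonneg _
    refine Summable.of_nonneg_of_le (fun x => Finset.sum_nonneg fun y _ => abs_nonneg _)
      (fun x => ?_) (hs.add (hF.mul_left (D : ℝ)))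
    calc ∑ y ∈ G.neighborFinset x, |F y - F x|
        ≤ ∑ y ∈ G.neighborFinset x, (|F y| + |F x|) :=
          Finset.sum_le_sum fun y _ => abs_sub _ _
      _ = ∑ y ∈ G.neighborFinset x, |F y| + (G.neighborFinset x).card * |F x| := by
          rw [Finset.sum_add_distrib, Finset.sum_const, nsmul_eq_mul]
      _ ≤ ∑ y ∈ G.neighborFinset x, |F y| + D * |F x| := by
          have : ((G.neighborFinset x).card : ℝ) ≤ D := by exact_mod_cast hD x
          nlinarith [abs_nonneg (F x)]
  · obtain ⟨k, hk⟩ := h2 x r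
    exact ⟨k, by rw [← hk]; ring⟩

end Pool.Agent.H289SM.TaskP1
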