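import Pool.Agent.H289SM.Stmts

set_option autoImplicit false

open scoped BigOperators ENNReal
open MeasureTheory Filter Topology Classical
open Pool.Agent.RW114

namespace Pool.Agent.H289SM.TaskP2

theorem main : Pool.Agent.H289SM.TaskP2 := by
  intro V G τ F φ c hφ s
  obtain ⟨ρ, v⟩ := s
  obtain ⟨hc, hb, hk⟩ := hφ
  have hsum : ∀ ρ : Conf G, Summable fun x => φ x (ρ x) := fun ρ =>
    Summable.of_norm_bounded hc fun x => hb x (ρ x)
  obtain ⟨k, hk'⟩ := hk v (ρ v)
  refine ⟨k, ?_⟩
  rw [← hk']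
  have h1 : Phi G φ (step G τ (ρ, v)).1 - Phi G φ ρ = φ v (τ v (ρ v)) - φ v (ρ v) := by
    unfold Phi
    rw [← (hsum _).tsum_sub (hsum _), tsum_eq_single v]
    · simp only [step, Function.update_self]
    · intro x hx
      simp only [step]
      rw [Function.update_of_ne hx, sub_self]
  have h2 : (step G τ (ρ, v)).2 = ((τ v (ρ v) : G.neighborSet v) : V) := rfl
  rw [h2]
  linarith

end Pool.Agent.H289SM.TaskP2
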