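import Pool.Agent.H289SM.Stmts

/-!
# Task P3: the limit
-/

set_option autoImplicit false

open scoped BigOperators ENNReal
open MeasureTheory Filter Topology Classical
open Pool.Agent.RW114

namespace Pool.Agent.H289SM

theorem walk_succ' {V : Type} (G : SimpleGraph V) (τ : ∀ x, Equiv.Perm (G.neighborSet x)) (a : V)
    (ρ : Conf G) (t : ℕ) : walk G τ a ρ (t + 1) = step G τ (walk G τ a ρ t) := by
  unfold walk
  rw [Function.iterate_succ_apply']

theorem rotor_succ {V : Type} (G : SimpleGraph V) (τ : ∀ x, Equiv.Perm (G.neighborSet x)) (a : V)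
    (ρ : Conf G) (t : ℕ) {x : V} (h : (walk G τ a ρ t).2 ≠ x) :
    (walk G τ a ρ (t + 1)).1 x = (walk G τ a ρ t).1 x := by
  rw [walk_succ']
  unfold step
  exact Function.update_of_ne h.symm _ _

theorem eventually_final {V : Type} (G : SimpleGraph V) (τ : ∀ x, Equiv.Perm (G.neighborSet x))
    (a : V) (ρ : Conf G) (htr : Transient G τ a ρ) (x : V) :
    ∀ᶠ t in atTop, (walk G τ a ρ t).1 x = final G τ a ρ x := by
  have h : ∃ v, ∀ᶠ t in atTop, (walk G τ a ρ t).1 x = v := by
    obtain ⟨T, hT⟩ := (htr x).bddAbove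
    refine ⟨(walk G τ a ρ (T + 1)).1 x, eventually_atTop.2 ⟨T + 1, fun t ht => ?_⟩⟩
    induction t, ht using Nat.le_induction with
    | base => rfl
    | succ t ht ih =>
      rw [rotor_succ, ih]
      intro h
      have : t ≤ T := hT h
      omega
  unfold final
  rw [dif_pos h]
  exact h.choose_spec

theorem taskP3 (h2 : TaskP2) : TaskP3 := by
  intro V G τ F φ c hφ hF a ρ htr
  -- the invariant
  have hinv : ∀ t, ∃ k : ℤ, Phi G φ (walk G τ a ρ t).1 + F (walk G τ a ρ t).2 -
      (Phi G φ ρ + F a) = k := by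
    intro t
    induction t with
    | zero => exact ⟨0, by simp [walk]⟩
    | succ t ih =>
      obtain ⟨k, hk⟩ := ih
      obtain ⟨l, hl⟩ := h2 V G τ F φ c hφ (walk G τ a ρ t)
      refine ⟨k + l, ?_⟩
      rw [walk_succ']
      push_cast
      linarith
  -- the limits
  have hX : Tendsto (fun t => (walk G τ a ρ t).2) atTop cofinite := by
    rw [← Nat.cofinite_eq_atTop]
    exact Filter.Tendsto.cofinite_of_finite_preimage_singleton fun x => (htr x).to_subtype
  have hF0 : Tendsto (fun t => F (walk G τ a ρ t).2) atTop (𝓝 0) :=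
    hF.of_abs.tendsto_cofinite_zero.comp hX
  have hP : Tendsto (fun t => Phi G φ (walk G τ a ρ t).1) atTop (𝓝 (Phi G φ (final G τ a ρ))) := by
    unfold Phi
    refine tendsto_tsum_of_dominated_convergence (bound := c) hφ.1 (fun x => ?_)
      (Eventually.of_forall fun t x => ?_)
    · refine tendsto_const_nhds.congr' ?_
      filter_upwards [eventually_final G τ a ρ htr x] with t ht
      rw [ht]
    · rw [Real.norm_eq_abs]
      exact hφ.2.1 _ _
  have hlim : Tendsto (fun t => Phi G φ (walk G τ a ρ t).1 + F (walk G τ a ρ t).2 -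
      (Phi G φ ρ + F a)) atTop (𝓝 (Phi G φ (final G τ a ρ) - Phi G φ ρ - F a)) := by
    have := (hP.add hF0).sub_const (Phi G φ ρ + F a)
    convert this using 2
    ring
  have hcl : IsClosed (Set.range ((↑) : ℤ → ℝ)) := Int.isClosedEmbedding_coe_real.isClosed_range
  obtain ⟨k, hk⟩ := hcl.mem_of_tendsto hlim (Eventually.of_forall fun t => by
    obtain ⟨k, hk⟩ := hinv t
    exact ⟨k, hk.symm⟩)
  exact ⟨k, hk.symm⟩

end Pool.Agent.H289SM
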