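import Pool.Agent.H289SM.Stmts

set_option autoImplicit false

open scoped BigOperators
open MeasureTheory Filter Topology
open Pool.Agent.RW114

namespace Pool.Agent.H289SM.TaskP4

theorem main : Pool.Agent.H289SM.TaskP4 := by
  intro V _ G φ c hc hφ
  have hm : ∀ x : V, Measurable (fun ρ : Conf G => φ x (ρ x)) := by
    intro x
    have h1 : @Measurable (Conf G) (G.neighborSet x) (confMS G) ⊤ (fun ρ => ρ x) :=
      @measurable_pi_apply V (fun x => G.neighborSet x) (fun _ => ⊤) x
    have h2 : @Measurable (G.neighborSet x) ℝ ⊤ _ (φ x) := measurable_from_top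
    exact @Measurable.comp _ _ _ (confMS G) ⊤ _ _ _ h2 h1
  have hs : ∀ s : Finset V, Measurable (fun ρ : Conf G => ∑ x ∈ s, φ x (ρ x)) := fun s =>
    Finset.measurable_sum s fun x _ => hm x
  refine measurable_of_tendsto_metrizable' (u := (atTop : Filter (Finset V)))
    (f := fun s ρ => ∑ x ∈ s, φ x (ρ x)) hs (tendsto_pi_nhds.2 fun ρ => ?_)
  have hsum : Summable (fun x => φ x (ρ x)) :=
    Summable.of_norm_bounded hc fun x => by
      rw [Real.norm_eq_abs]; exact hφ x (ρ x)
  exact hsum.hasSum

end Pool.Agent.H289SM.TaskP4
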