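import Pool.Agent.H289SM.Stmts

set_option autoImplicit false

open scoped BigOperators ENNReal
open MeasureTheory Filter Topology Classical
open Pool.Agent.RW114

namespace Pool.Agent.H289SM.TaskT1

theorem update_coe {V : Type} {G : SimpleGraph V} (ρ : Conf G) (x : V) (a : G.neighborSet x)
    (y : V) : ((Function.update ρ x a y : G.neighborSet y) : V) =
      if y = x then (a : V) else (ρ y : V) := by
  by_cases h : y = x
  · subst h
    simp
  · simp [h]

theorem step_pos {V : Type} {G : SimpleGraph V} {τ : ∀ x, Equiv.Perm (G.neighborSet x)}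
    (s : Conf G × V) (y : V) (h : y = s.2) :
    (((step G τ s).1 y : G.neighborSet y) : V) = τ s.2 (s.1 s.2) := by
  unfold step
  rw [update_coe, if_pos h]

theorem step_neg {V : Type} {G : SimpleGraph V} {τ : ∀ x, Equiv.Perm (G.neighborSet x)}
    (s : Conf G × V) (y : V) (h : ¬ y = s.2) :
    (((step G τ s).1 y : G.neighborSet y) : V) = s.1 y := by
  unfold step
  rw [update_coe, if_neg h]

/-- translation of a state -/
def Sh {d : ℕ} (v : Fin d → ℤ) (s : Conf (Zd d) × (Fin d → ℤ)) : Conf (Zd d) × (Fin d → ℤ) :=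
  (shift v s.1, s.2 + v)

theorem shift_coe {d : ℕ} (v : Fin d → ℤ) (ρ : Conf (Zd d)) (x : Fin d → ℤ) :
    ((shift v ρ x : (Zd d).neighborSet x) : Fin d → ℤ) = (ρ (x - v) : Fin d → ℤ) + v := rfl

theorem rot_shift {d : ℕ} {τ : ∀ x, Equiv.Perm ((Zd d).neighborSet x)} (hτ : TransInv τ)
    (v x : Fin d → ℤ) (ρ : Conf (Zd d)) :
    ((τ (x + v) (shift v ρ (x + v)) : (Zd d).neighborSet (x + v)) : Fin d → ℤ) =
      (τ x (ρ x) : Fin d → ℤ) + v := by
  rw [hτ v (x + v) ρ]
  have h : ∀ y, y = x → ((τ y (ρ y) : (Zd d).neighborSet y) : Fin d → ℤ) + v =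
      (τ x (ρ x) : Fin d → ℤ) + v := by
    rintro y rfl
    rfl
  exact h _ (add_sub_cancel_right x v)

theorem step_shift {d : ℕ} {τ : ∀ x, Equiv.Perm ((Zd d).neighborSet x)} (hτ : TransInv τ)
    (v : Fin d → ℤ) (s : Conf (Zd d) × (Fin d → ℤ)) :
    step (Zd d) τ (Sh v s) = Sh v (step (Zd d) τ s) := by
  obtain ⟨ρ, x⟩ := s
  refine Prod.ext ?_ ?_
  · funext y
    apply Subtype.ext
    change (((step (Zd d) τ (Sh v (ρ, x))).1 y : (Zd d).neighborSet y) : Fin d → ℤ) =
      (((step (Zd d) τ (ρ, x)).1 (y - v) : (Zd d).neighborSet (y - v)) : Fin d → ℤ) + v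
    by_cases h : y = x + v
    · have h' : y - v = x := by rw [h]; exact add_sub_cancel_right x v
      rw [step_pos (Sh v (ρ, x)) y h, step_pos (ρ, x) (y - v) h']
      exact rot_shift hτ v x ρ
    · have h' : ¬ y - v = x := fun h' => h (by rw [← h']; exact (sub_add_cancel y v).symm)
      rw [step_neg (Sh v (ρ, x)) y h, step_neg (ρ, x) (y - v) h']
      rfl
  · exact rot_shift hτ v x ρ

theorem walk_shift {d : ℕ} {τ : ∀ x, Equiv.Perm ((Zd d).neighborSet x)} (hτ : TransInv τ)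
    (v a : Fin d → ℤ) (ρ : Conf (Zd d)) (t : ℕ) :
    walk (Zd d) τ (a + v) (shift v ρ) t = Sh v (walk (Zd d) τ a ρ t) := by
  have h : Function.Semiconj (Sh v) (step (Zd d) τ) (step (Zd d) τ) :=
    fun s => (step_shift hτ v s).symm
  exact ((h.iterate_right t) (ρ, a)).symm

theorem final_eq {V : Type} {G : SimpleGraph V} {τ : ∀ x, Equiv.Perm (G.neighborSet x)} {a : V}
    {ρ : Conf G} {x : V} {w : G.neighborSet x} (h : ∀ᶠ t in atTop, (walk G τ a ρ t).1 x = w) :
    final G τ a ρ x = w := by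
  have h1 : ∃ v, ∀ᶠ t in atTop, (walk G τ a ρ t).1 x = v := ⟨w, h⟩
  unfold final
  rw [dif_pos h1]
  obtain ⟨t, h2, h3⟩ := (h1.choose_spec.and h).exists
  rw [← h2, h3]

theorem final_neg {V : Type} {G : SimpleGraph V} {τ : ∀ x, Equiv.Perm (G.neighborSet x)} {a : V}
    {ρ : Conf G} {x : V} (h : ¬ ∃ w, ∀ᶠ t in atTop, (walk G τ a ρ t).1 x = w) :
    final G τ a ρ x = ρ x := by
  unfold final
  rw [dif_neg h]

theorem main : Pool.Agent.H289SM.TaskT1 := by
  intro d τ hτ v a ρ
  have hw2 : ∀ t, (walk (Zd d) τ (a + v) (shift v ρ) t).2 = (walk (Zd d) τ a ρ t).2 + v :=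
    fun t => by rw [walk_shift hτ]; rfl
  have hw1 : ∀ t x, (((walk (Zd d) τ (a + v) (shift v ρ) t).1 x : (Zd d).neighborSet x) :
      Fin d → ℤ) = ((walk (Zd d) τ a ρ t).1 (x - v) : Fin d → ℤ) + v :=
    fun t x => by rw [walk_shift hτ]; rfl
  refine ⟨⟨fun h x => ?_, fun h x => ?_⟩, fun _ => ?_⟩
  · refine (h (x - v)).subset ?_
    intro t ht
    have ht' : (walk (Zd d) τ (a + v) (shift v ρ) t).2 = x := ht
    rw [hw2] at ht'
    exact eq_sub_of_add_eq ht'
  · refine (h (x + v)).subset ?_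
    intro t ht
    have ht' : (walk (Zd d) τ a ρ t).2 = x := ht
    change (walk (Zd d) τ (a + v) (shift v ρ) t).2 = x + v
    rw [hw2, ht']
  · funext x
    by_cases h : ∃ w, ∀ᶠ t in atTop, (walk (Zd d) τ a ρ t).1 (x - v) = w
    · obtain ⟨w, hw⟩ := h
      have h1 : final (Zd d) τ a ρ (x - v) = w := final_eq hw
      have h2 : ∀ᶠ t in atTop, (walk (Zd d) τ (a + v) (shift v ρ) t).1 x =
          shift v (final (Zd d) τ a ρ) x := by
        filter_upwards [hw] with t ht
        apply Subtype.ext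
        rw [hw1, ht, shift_coe, h1]
      exact final_eq h2
    · have h' : ¬ ∃ w, ∀ᶠ t in atTop, (walk (Zd d) τ (a + v) (shift v ρ) t).1 x = w := by
        rintro ⟨w, hw⟩
        obtain ⟨t₀, ht₀⟩ := hw.exists
        refine h ⟨(walk (Zd d) τ a ρ t₀).1 (x - v), ?_⟩
        filter_upwards [hw] with t ht
        apply Subtype.ext
        have h3 : (((walk (Zd d) τ (a + v) (shift v ρ) t).1 x : (Zd d).neighborSet x) :
            Fin d → ℤ) = ((walk (Zd d) τ (a + v) (shift v ρ) t₀).1 x : (Zd d).neighborSet x) := by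
          rw [ht, ht₀]
        rw [hw1, hw1] at h3
        exact add_right_cancel h3
      rw [final_neg h']
      apply Subtype.ext
      rw [shift_coe, shift_coe, final_neg h]

end Pool.Agent.H289SM.TaskT1
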