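import Pool.Agent.H289SM.Stmts

set_option autoImplicit false

open MeasureTheory
open Pool.Agent.RW114

namespace Pool.Agent.H289SM.TaskT2

open Pool.Agent.H289SM

theorem shift_apply {d : ℕ} (v : Fin d → ℤ) (ρ : Conf (Zd d)) (x : Fin d → ℤ) :
    ((shift v ρ x : (Zd d).neighborSet x) : Fin d → ℤ) =
      ((ρ (x - v) : (Zd d).neighborSet (x - v)) : Fin d → ℤ) + v := rfl

theorem shift_neg {d : ℕ} (v w : Fin d → ℤ) (h : v + w = 0) (ρ : Conf (Zd d)) :
    shift w (shift v ρ) = ρ := by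
  funext x
  apply Subtype.ext
  rw [shift_apply, shift_apply]
  have h1 : x - w - v = x := by
    rw [sub_sub, add_comm w v, h, sub_zero]
  have h2 : ((ρ (x - w - v) : (Zd d).neighborSet (x - w - v)) : Fin d → ℤ) =
      ((ρ x : (Zd d).neighborSet x) : Fin d → ℤ) :=
    congrArg (fun y => ((ρ y : (Zd d).neighborSet y) : Fin d → ℤ)) h1
  rw [h2, add_assoc, h, add_zero]

theorem main : Pool.Agent.H289SM.TaskT2 := by
  intro d v
  refine ⟨?_, fun ρ => ⟨shift_neg v (-v) (by simp) ρ, shift_neg (-v) v (by simp) ρ⟩⟩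
  let _i : ∀ x, MeasurableSpace ((Zd d).neighborSet x) := fun _ => ⊤
  refine measurable_pi_iff.2 fun x => ?_
  have h1 : Measurable (fun r : (Zd d).neighborSet (x - v) =>
      (⟨r.1 + v, Zd_adj_add r.2⟩ : (Zd d).neighborSet x)) := measurable_from_top
  exact h1.comp (measurable_pi_apply (x - v))

end Pool.Agent.H289SM.TaskT2
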