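import Pool.Agent.H289SM.Stmts

set_option autoImplicit false

open MeasureTheory Filter Topology Classical
open Pool.Agent.RW114

namespace Pool.Agent.H289SM.TaskT3

theorem main (h1 : TaskT1) (h2 : TaskT2) : Pool.Agent.H289SM.TaskT3 := by
  intro d τ hτ μ hμ a b hst
  obtain ⟨hp, htr, hfin⟩ := hst
  obtain ⟨v, hv⟩ : ∃ v, v = b - a := ⟨_, rfl⟩
  have hav : a + v = b := by rw [hv]; abel
  let e : Conf (Zd d) ≃ᵐ Conf (Zd d) :=
    { toFun := shift v
      invFun := shift (-v)
      left_inv := fun ρ => ((h2 d v).2 ρ).1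
      right_inv := fun ρ => ((h2 d v).2 ρ).2
      measurable_toFun := (h2 d v).1
      measurable_invFun := (h2 d (-v)).1 }
  have he : ∀ ρ, e ρ = shift v ρ := fun ρ => rfl
  have hTb : ∀ᵐ ρ ∂μ, Transient (Zd d) τ b ρ := by
    have h3 : ∀ᵐ ρ ∂(μ.map e), Transient (Zd d) τ b ρ := by
      rw [e.measurableEmbedding.ae_map_iff]
      filter_upwards [htr] with ρ hρ
      have := (h1 d τ hτ v a ρ).1.1 hρ
      rwa [hav] at this
    have h4 : μ.map e = μ := hμ v
    rwa [h4] at h3
  refine ⟨hp, hTb, ?_⟩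
  have hne : μ.map (final (Zd d) τ a) ≠ 0 := by
    rw [hfin]
    exact hp.ne_zero
  have hae : AEMeasurable (final (Zd d) τ a) μ := by
    by_contra hcon
    exact hne (Measure.map_of_not_aemeasurable hcon)
  have hcongr : final (Zd d) τ b =ᵐ[μ] (shift v ∘ final (Zd d) τ a ∘ shift (-v)) := by
    filter_upwards [hTb] with ρ hρ
    have h3 : shift v (shift (-v) ρ) = ρ := ((h2 d v).2 ρ).2
    have h4 : Transient (Zd d) τ a (shift (-v) ρ) := by
      apply (h1 d τ hτ v a (shift (-v) ρ)).1.2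
      rw [h3, hav]
      exact hρ
    have h5 := (h1 d τ hτ v a (shift (-v) ρ)).2 h4
    rw [h3, hav] at h5
    exact h5
  rw [Measure.map_congr hcongr]
  have hm1 : AEMeasurable (shift (-v) : Conf (Zd d) → Conf (Zd d)) μ :=
    (h2 d (-v)).1.aemeasurable
  have h5 : AEMeasurable (final (Zd d) τ a) (μ.map (shift (-v))) := by
    rw [hμ (-v)]
    exact hae
  have h6 : AEMeasurable (final (Zd d) τ a ∘ shift (-v)) μ := h5.comp_aemeasurable hm1
  rw [← AEMeasurable.map_map_of_aemeasurable (h2 d v).1.aemeasurable h6,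
    ← AEMeasurable.map_map_of_aemeasurable h5 hm1, hμ (-v), hfin, hμ v]

end Pool.Agent.H289SM.TaskT3
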