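import Mathlib
import Pool.Agent.H289SM.Stmts

set_option autoImplicit false

open scoped BigOperators ENNReal
open MeasureTheory Filter Topology Classical
open Pool.Agent.RW114

namespace Pool.Agent.H289SM.TaskT4

open Pool.Agent.H289SM

theorem ev {V : Type} (G : SimpleGraph V) (x : V) (t : Set (G.neighborSet x)) :
    MeasurableSet ((fun ρ : Conf G => ρ x) ⁻¹' t) :=
  @measurable_pi_apply V (fun x => G.neighborSet x) (fun _ => ⊤) x t
    MeasurableSpace.measurableSet_top

theorem cyl {V : Type} (G : SimpleGraph V) (W : Finset V) (η : Conf G) :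
    MeasurableSet {ρ : Conf G | ∀ x ∈ W, ρ x = η x} := by
  have h : {ρ : Conf G | ∀ x ∈ W, ρ x = η x} =
      ⋂ x ∈ W, ((fun ρ : Conf G => ρ x) ⁻¹' {η x}) := by
    ext ρ
    simp
  rw [h]
  exact Finset.measurableSet_biInter W fun x _ => ev G x {η x}

theorem main : Pool.Agent.H289SM.TaskT4 := by
  intro V _ G _ μ ν hμ hν h
  set C : Set (Set (Conf G)) :=
    {s | s = ∅ ∨ ∃ (W : Finset V) (η : Conf G), s = {ρ | ∀ x ∈ W, ρ x = η x}} with hC
  have hgen : confMS G = MeasurableSpace.generateFrom C := by
    apply le_antisymm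
    · refine iSup_le fun x => ?_
      rintro s ⟨t, -, rfl⟩
      have h1 : (fun ρ : Conf G => ρ x) ⁻¹' t =
          ⋃ y ∈ t, ((fun ρ : Conf G => ρ x) ⁻¹' {y}) := by
        ext ρ
        simp
      rw [h1]
      refine @MeasurableSet.biUnion _ _ (MeasurableSpace.generateFrom C) _ t t.to_countable
        fun y _ => ?_
      rcases ((fun ρ : Conf G => ρ x) ⁻¹' {y}).eq_empty_or_nonempty with he | ⟨ρ0, h0⟩
      · rw [he]
        exact @MeasurableSet.empty _ (MeasurableSpace.generateFrom C)
      · apply MeasurableSpace.measurableSet_generateFrom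
        refine Or.inr ⟨{x}, ρ0, ?_⟩
        have h0' : ρ0 x = y := h0
        ext ρ
        simp [h0']
    · apply MeasurableSpace.generateFrom_le
      rintro s (rfl | ⟨W, η, rfl⟩)
      · exact MeasurableSet.empty
      · exact cyl G W η
  have hpi : IsPiSystem C := by
    rintro s (rfl | ⟨W, η, rfl⟩) t (rfl | ⟨W', η', rfl⟩) hne
    · exact Or.inl (by simp)
    · exact Or.inl (by simp)
    · exact Or.inl (by simp)
    · obtain ⟨ρ0, h1, h2⟩ := hne
      refine Or.inr ⟨W ∪ W', ρ0, ?_⟩
      ext ρ
      constructor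
      · rintro ⟨h3, h4⟩ x hx
        rcases Finset.mem_union.1 hx with hx | hx
        · rw [h3 x hx, h1 x hx]
        · rw [h4 x hx, h2 x hx]
      · intro h3
        refine ⟨fun x hx => ?_, fun x hx => ?_⟩
        · rw [h3 x (Finset.mem_union_left _ hx), h1 x hx]
        · rw [h3 x (Finset.mem_union_right _ hx), h2 x hx]
  refine ext_of_generate_finite C hgen hpi ?_ (by rw [measure_univ, measure_univ])
  rintro s (rfl | ⟨W, η, rfl⟩)
  · rw [measure_empty, measure_empty]
  · have := h W η
    rw [measureReal_def, measureReal_def] at this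
    exact (ENNReal.toReal_eq_toReal_iff' (measure_ne_top _ _) (measure_ne_top _ _)).1 this

end Pool.Agent.H289SM.TaskT4
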