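import Pool.Agent.H289SM.Stmts

set_option autoImplicit false

open scoped BigOperators ENNReal
open MeasureTheory Filter Topology Classical
open Pool.Agent.RW114

namespace Pool.Agent.H289SM.TaskT5

variable {d : ℕ}

/-- transport of the out-neighbours of the vertices of `I` to those of `J = I + v` -/
def T (v : Fin d → ℤ) {I J : Set (Fin d → ℤ)} (h : ∀ x ∈ J, x - v ∈ I)
    (f : ∀ x : I, (Zd d).neighborSet x.1) : ∀ x : J, (Zd d).neighborSet x.1 :=
  fun x => ⟨(f ⟨x.1 - v, h x.1 x.2⟩).1 + v, Zd_adj_add (f ⟨x.1 - v, h x.1 x.2⟩).2⟩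

theorem T_val (v : Fin d → ℤ) {I J : Set (Fin d → ℤ)} (h : ∀ x ∈ J, x - v ∈ I)
    (f : ∀ x : I, (Zd d).neighborSet x.1) (x : J) :
    (T v h f x).1 = (f ⟨x.1 - v, h x.1 x.2⟩).1 + v := rfl

theorem val_congr {I : Set (Fin d → ℤ)} (f : ∀ x : I, (Zd d).neighborSet x.1) (x y : I)
    (h : x.1 = y.1) : (f x).1 = (f y).1 := by
  have : x = y := Subtype.ext h
  rw [this]

theorem conf_congr (η : Conf (Zd d)) (x y : Fin d → ℤ) (h : x = y) : (η x).1 = (η y).1 := by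
  rw [h]

theorem forest (v : Fin d → ℤ) {I J : Set (Fin d → ℤ)} (h : ∀ x ∈ J, x - v ∈ I)
    (f : ∀ x : I, (Zd d).neighborSet x.1) (hf : f ∈ ForestsI (Zd d) I) :
    T v h f ∈ ForestsI (Zd d) J := by
  rintro ⟨k, c, hk, hc, hi⟩
  apply hf
  refine ⟨k, fun i => ⟨(c i).1 - v, h _ (c i).2⟩, hk, ?_, ?_⟩
  · simp only [hc]
  · intro i hik
    have h1 := hi i hik
    rw [T_val] at h1
    show (f ⟨(c i).1 - v, h _ (c i).2⟩).1 = (c (i + 1)).1 - v
    rw [← h1]
    exact (add_sub_cancel_right _ _).symm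

theorem T_T (v w : Fin d → ℤ) (hvw : v + w = 0) {I J : Set (Fin d → ℤ)} (h : ∀ x ∈ J, x - v ∈ I)
    (h' : ∀ x ∈ I, x - w ∈ J) (f : ∀ x : I, (Zd d).neighborSet x.1) :
    T w h' (T v h f) = f := by
  funext x
  apply Subtype.ext
  rw [T_val, T_val, add_assoc, hvw, add_zero]
  apply val_congr
  show x.1 - w - v = x.1
  rw [sub_sub, add_comm w v, hvw, sub_zero]

theorem main : Pool.Agent.H289SM.TaskT5 := by
  intro d v I W η
  have h : ∀ x ∈ (fun x => x + v) '' I, x - v ∈ I := by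
    rintro _ ⟨y, hy, rfl⟩
    show y + v - v ∈ I
    rw [add_sub_cancel_right]
    exact hy
  have h' : ∀ x ∈ I, x - (-v) ∈ (fun x => x + v) '' I := by
    intro x hx
    exact ⟨x, hx, by simp⟩
  refine Set.ncard_congr (fun f _ => T v h f) ?_ ?_ ?_
  · rintro f ⟨hf, hW⟩
    refine ⟨forest v h f hf, fun x hx => ?_⟩
    apply Subtype.ext
    rw [T_val]
    obtain ⟨y, hy, hyx⟩ := Finset.mem_image.1 hx
    have hxW : x.1 - v ∈ W := by
      rw [← hyx]
      show y + v - v ∈ W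
      rw [add_sub_cancel_right]
      exact hy
    rw [hW ⟨x.1 - v, h x.1 x.2⟩ hxW]
    rfl
  · intro f g _ _ hfg
    have e1 := T_T v (-v) (by simp) h h' f
    have e2 := T_T v (-v) (by simp) h h' g
    rw [← e1, ← e2]
    exact congrArg _ hfg
  · rintro g ⟨hg, hW⟩
    refine ⟨T (-v) h' g, ⟨forest (-v) h' g hg, fun x hx => ?_⟩, T_T (-v) v (by simp) h' h g⟩
    apply Subtype.ext
    rw [T_val]
    have hxW : x.1 - (-v) ∈ W.image (fun x => x + v) :=
      Finset.mem_image.2 ⟨x.1, hx, by simp⟩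
    rw [hW ⟨x.1 - (-v), h' x.1 x.2⟩ hxW]
    show (η (x.1 - (-v) - v)).1 + v + (-v) = (η x.1).1
    rw [add_neg_cancel_right]
    exact conf_congr η _ _ (by simp)

end Pool.Agent.H289SM.TaskT5
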