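import Pool.Agent.H289SM.Stmts

set_option autoImplicit false

open scoped BigOperators ENNReal
open MeasureTheory Filter Topology Classical
open Pool.Agent.RW114 Pool.Agent.H289SM

namespace Pool.Agent.H289SM.TaskT6

theorem locFin (d : ℕ) : Nonempty (Zd d).LocallyFinite := by
  refine ⟨fun x => ?_⟩
  have hfin : ((Zd d).neighborSet x).Finite := by
    refine Set.Finite.subset (Set.Finite.pi' (t := fun i => Set.Icc (x i - 1) (x i + 1))
      fun i => Set.finite_Icc _ _) ?_
    intro y hy i
    have h : ∑ i, |x i - y i| = 1 := hy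
    have h1 : |x i - y i| ≤ ∑ i, |x i - y i| :=
      Finset.single_le_sum (f := fun i => |x i - y i|) (fun i _ => abs_nonneg _)
        (Finset.mem_univ i)
    rw [h, abs_le] at h1
    constructor <;> omega
  exact hfin.fintype

theorem meas_cyl {V : Type} (G : SimpleGraph V) (W : Finset V) (η : Conf G) :
    MeasurableSet {ρ : Conf G | ∀ x ∈ W, ρ x = η x} := by
  have h : {ρ : Conf G | ∀ x ∈ W, ρ x = η x} = ⋂ x ∈ W, {ρ : Conf G | ρ x = η x} := by
    ext ρ; simp
  rw [h]
  refine Finset.measurableSet_biInter W fun x _ => ?_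
  have hm : @Measurable _ _ (confMS G) ⊤ (fun ρ : Conf G => ρ x) :=
    @measurable_pi_apply V (fun x => G.neighborSet x) (fun _ => ⊤) x
  exact hm (show MeasurableSet[⊤] {η x} from trivial)

theorem cyl_iff {d : ℕ} (v : Fin d → ℤ) (W : Finset (Fin d → ℤ)) (η ρ : Conf (Zd d)) :
    (∀ x ∈ W, shift v ρ x = η x) ↔
      ∀ y ∈ W.image (fun x => x + -v), ρ y = shift (-v) η y := by
  constructor
  · intro h y hy
    obtain ⟨x, hx, rfl⟩ := Finset.mem_image.mp hy
    have h1 := congrArg Subtype.val (h x hx)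
    apply Subtype.ext
    change (ρ (x - v)).1 + v = (η x).1 at h1
    change (ρ (x + -v)).1 = (η (x + -v - -v)).1 + -v
    have e1 : x + -v = x - v := by abel
    have e2 : x + -v - -v = x := by abel
    have h2 : (ρ (x + -v)).1 = (ρ (x - v)).1 := congrArg (fun z => (ρ z).1) e1
    have h3 : (η (x + -v - -v)).1 = (η x).1 := congrArg (fun z => (η z).1) e2
    rw [h2, h3, ← h1]
    abel
  · intro h x hx
    have h1 := congrArg Subtype.val (h (x + -v) (Finset.mem_image_of_mem _ hx))
    apply Subtype.ext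
    change (ρ (x - v)).1 + v = (η x).1
    change (ρ (x + -v)).1 = (η (x + -v - -v)).1 + -v at h1
    have e1 : x + -v = x - v := by abel
    have e2 : x + -v - -v = x := by abel
    have h2 : (ρ (x + -v)).1 = (ρ (x - v)).1 := congrArg (fun z => (ρ z).1) e1
    have h3 : (η (x + -v - -v)).1 = (η x).1 := congrArg (fun z => (η z).1) e2
    rw [h2, h3] at h1
    rw [h1]
    abel

/-- the boxes -/
def box (d : ℕ) (R : ℕ) : Set (Fin d → ℤ) := {x | ∀ i, |x i| ≤ R}

theorem box_mono (d : ℕ) : Monotone (box d) := by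
  intro R R' h x hx i
  exact (hx i).trans (by exact_mod_cast h)

theorem box_fin (d R : ℕ) : (box d R).Finite := by
  refine Set.Finite.subset (Set.Finite.pi' (t := fun _ : Fin d => Set.Icc (-(R : ℤ)) R)
    fun i => Set.finite_Icc _ _) ?_
  intro x hx i
  have := hx i
  rw [abs_le] at this
  exact this

theorem box_univ (d : ℕ) : (⋃ R, box d R) = Set.univ := by
  refine Set.eq_univ_of_forall fun x => Set.mem_iUnion.mpr ⟨∑ i, (x i).natAbs, fun i => ?_⟩
  have h : (x i).natAbs ≤ ∑ i, (x i).natAbs :=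
    Finset.single_le_sum (f := fun i => (x i).natAbs) (fun i _ => Nat.zero_le _)
      (Finset.mem_univ i)
  rw [Int.abs_eq_natAbs]
  exact_mod_cast h

theorem main (h2 : TaskT2) (h4 : TaskT4) (h5 : TaskT5) : Pool.Agent.H289SM.TaskT6 := by
  intro d μ hμ hO v
  obtain ⟨hlf⟩ := locFin d
  have hmeas := (h2 d v).1
  refine h4 (Fin d → ℤ) (Zd d) (μ.map (shift v)) μ
    (Measure.isProbabilityMeasure_map hmeas.aemeasurable) hμ ?_
  intro W η
  rw [map_measureReal_apply hmeas (meas_cyl _ W η)]
  have hpre : shift v ⁻¹' {ρ : Conf (Zd d) | ∀ x ∈ W, ρ x = η x} =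
      {ρ : Conf (Zd d) | ∀ y ∈ W.image (fun x => x + -v), ρ y = shift (-v) η y} := by
    ext ρ
    exact cyl_iff v W η ρ
  rw [hpre]
  have l1 := hO (box d) (box_mono d) (box_fin d) (box_univ d) (W.image fun x => x + -v)
    (shift (-v) η)
  have hm' : Monotone fun R => (fun x : Fin d → ℤ => x + v) '' box d R :=
    fun R R' h => Set.image_mono (box_mono d h)
  have hu' : (⋃ R, (fun x : Fin d → ℤ => x + v) '' box d R) = Set.univ := by
    rw [← Set.image_iUnion, box_univ, Set.image_univ]
    exact (Equiv.addRight v).surjective.range_eq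
  have l2 := hO (fun R => (fun x : Fin d → ℤ => x + v) '' box d R) hm'
    (fun R => (box_fin d R).image _) hu' W η
  refine tendsto_nhds_unique l1 ?_
  refine l2.congr fun R => ?_
  have hW : (W.image fun x => x + -v).image (fun x => x + v) = W := by
    rw [Finset.image_image]
    have : ((fun x : Fin d → ℤ => x + v) ∘ fun x => x + -v) = id := by
      funext x
      simp
    rw [this, Finset.image_id]
  have hη : shift v (shift (-v) η) = η := ((h2 d v).2 η).2
  have hnum := h5 d v (box d R) (W.image fun x => x + -v) (shift (-v) η)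
  rw [hW, hη] at hnum
  have hden := h5 d v (box d R) ∅ (shift (-v) η)
  have e1 : {f | f ∈ ForestsI (Zd d) (box d R) ∧
      ∀ x : box d R, x.1 ∈ (∅ : Finset (Fin d → ℤ)) → f x = shift (-v) η x.1} =
      ForestsI (Zd d) (box d R) := by
    ext f; simp
  have e2 : {f | f ∈ ForestsI (Zd d) ((fun x => x + v) '' box d R) ∧
      ∀ x : (fun x => x + v) '' box d R, x.1 ∈ (∅ : Finset (Fin d → ℤ)).image (fun x => x + v) →
        f x = shift v (shift (-v) η) x.1} =
      ForestsI (Zd d) ((fun x => x + v) '' box d R) := by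
    ext f; simp
  rw [e1, e2] at hden
  rw [hnum, hden]

end Pool.Agent.H289SM.TaskT6
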