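import Pool.Agent.H289SM.Stmts

set_option autoImplicit false

open scoped BigOperators ENNReal
open Pool.Agent.RW114

namespace Pool.Agent.H289SM.TaskZ1

/-- the neighbours of `x` -/
def nb {d : ℕ} (x : Fin d → ℤ) (p : Fin d × Bool) : Fin d → ℤ :=
  if p.2 then x + Pi.single p.1 1 else x - Pi.single p.1 1

theorem nb_at {d : ℕ} (x : Fin d → ℤ) (p : Fin d × Bool) (j : Fin d) :
    nb x p j = x j + (if j = p.1 then (if p.2 then 1 else -1) else 0) := by
  unfold nb
  rcases p with ⟨i, b⟩
  by_cases h : j = i
  · subst h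
    cases b <;> simp [sub_eq_add_neg]
  · cases b <;> simp [h]

theorem nb_inj {d : ℕ} (x : Fin d → ℤ) : Function.Injective (nb x) := by
  rintro ⟨i, b⟩ ⟨i', b'⟩ h
  have h1 := congrFun h i
  rw [nb_at, nb_at] at h1
  by_cases hi : i = i'
  · subst hi
    cases b <;> cases b' <;> simp at h1 ⊢
  · exfalso
    cases b <;> simp [hi] at h1

theorem adj_iff {d : ℕ} (x y : Fin d → ℤ) : (Zd d).Adj x y ↔ ∃ p, nb x p = y := by
  constructor
  · intro h
    change ∑ i, |x i - y i| = 1 at h
    have hex : ∃ i, |x i - y i| ≠ 0 := by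
      by_contra hc
      push Not at hc
      rw [Finset.sum_congr rfl fun i _ => hc i] at h
      simp at h
    obtain ⟨i, hi⟩ := hex
    have hpos : 1 ≤ |x i - y i| := by
      have := abs_nonneg (x i - y i)
      omega
    have hsplit := Finset.add_sum_erase Finset.univ (fun i => |x i - y i|) (Finset.mem_univ i)
    have hrest : 0 ≤ ∑ j ∈ Finset.univ.erase i, |x j - y j| :=
      Finset.sum_nonneg fun j _ => abs_nonneg _
    have h1 : |x i - y i| = 1 := by
      omega
    have h2 : ∑ j ∈ Finset.univ.erase i, |x j - y j| = 0 := by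
      omega
    have h3 : ∀ j, j ≠ i → y j = x j := by
      intro j hj
      have := (Finset.sum_eq_zero_iff_of_nonneg (fun j _ => abs_nonneg (x j - y j))).1 h2 j
        (Finset.mem_erase.2 ⟨hj, Finset.mem_univ _⟩)
      have := abs_eq_zero.1 this
      omega
    rcases (abs_eq (by norm_num : (0 : ℤ) ≤ 1)).1 h1 with h4 | h4
    · refine ⟨(i, false), ?_⟩
      funext j
      rw [nb_at]
      by_cases hj : j = i
      · subst hj; simp; omega
      · simp [hj, h3 j hj]
    · refine ⟨(i, true), ?_⟩
      funext j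
      rw [nb_at]
      by_cases hj : j = i
      · subst hj; simp; omega
      · simp [hj, h3 j hj]
  · rintro ⟨⟨i, b⟩, rfl⟩
    change ∑ j, |x j - nb x (i, b) j| = 1
    rw [Finset.sum_eq_single i]
    · rw [nb_at]
      cases b <;> simp
    · intro j _ hj
      rw [nb_at]
      simp [hj]
    · intro h
      exact absurd (Finset.mem_univ i) h

theorem main : Pool.Agent.H289SM.TaskZ1 := by
  classical
  intro d _ x
  have himg : (Zd d).neighborFinset x = Finset.univ.image (nb x) := by
    ext y
    rw [SimpleGraph.mem_neighborFinset, adj_iff]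
    simp
  refine ⟨?_, fun f => ?_⟩
  · rw [himg, Finset.card_image_of_injective _ (nb_inj x)]
    simp [Fintype.card_prod, mul_comm]
  · rw [himg, Finset.sum_image fun a _ b _ h => nb_inj x h, Fintype.sum_prod_type]
    refine Finset.sum_congr rfl fun i _ => ?_
    rw [Fintype.sum_bool]
    simp [nb]

end Pool.Agent.H289SM.TaskZ1
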