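import Mathlib
import Pool.Agent.H289SM.Stmts

set_option autoImplicit false

namespace Pool.Agent.H289SM.TaskZ2

open Pool.Agent.H289SM

theorem main : Pool.Agent.H289SM.TaskZ2 := by
  intro d
  have hfin : ∀ x : Fin d → ℤ, ((Zd d).neighborSet x).Finite := by
    intro x
    refine (Set.finite_Icc (x - 1) (x + 1)).subset ?_
    intro y hy
    have h1 : ∑ i, |x i - y i| = 1 := hy
    have h2 : ∀ i, |x i - y i| ≤ 1 := by
      intro i
      rw [← h1]
      exact Finset.single_le_sum (f := fun i => |x i - y i|) (fun j _ => abs_nonneg _)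
        (Finset.mem_univ i)
    constructor
    · intro i
      have := abs_le.1 (h2 i)
      simp only [Pi.sub_apply, Pi.one_apply]
      omega
    · intro i
      have := abs_le.1 (h2 i)
      simp only [Pi.add_apply, Pi.one_apply]
      omega
  exact ⟨fun x => (hfin x).fintype⟩

end Pool.Agent.H289SM.TaskZ2
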